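import Mathlib

set_option autoImplicit false

namespace Pool.Agent.Helper808.Hedge

open MvPolynomial

/-- Euclidean 3-space. -/
abbrev E : Type := EuclideanSpace ℝ (Fin 3)

/-- Real polynomials in three variables. -/
abbrev Pol : Type := MvPolynomial (Fin 3) ℝ

/-- The unit sphere. -/
abbrev S2 : Set E := Metric.sphere (0 : E) 1

/-- The entries of the second derivative of `f` at `u`. -/
noncomputable def M (f : E → ℝ) (u : E) (i j : Fin 3) : ℝ :=
  fderiv ℝ (fderiv ℝ f) u (EuclideanSpace.single i (1 : ℝ)) (EuclideanSpace.single j (1 : ℝ))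

/-- The curvature function: the sum of the principal `2 × 2` minors of the second derivative of the
`1`-homogeneous function `f` (for `u` on the unit sphere). -/
noncomputable def R (f : E → ℝ) (u : E) : ℝ :=
  (M f u 0 0 * M f u 1 1 - M f u 0 1 * M f u 1 0)
    + (M f u 0 0 * M f u 2 2 - M f u 0 2 * M f u 2 0)
    + (M f u 1 1 * M f u 2 2 - M f u 1 2 * M f u 2 1)

/-- `f` is positively homogeneous of degree one. -/
def Hom1 (f : E → ℝ) : Prop := ∀ x : E, ∀ c : ℝ, 0 < c → f (c • x) = c * f x

/-- The restriction of `f` to the unit sphere is the restriction of a polynomial. -/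
def IsPoly (f : E → ℝ) : Prop := ∃ p : Pol, ∀ u ∈ S2, f u = eval (fun i => u i) p

end Pool.Agent.Helper808.Hedge
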