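import Pool.Agent.Helper808.Hedge.Defs

set_option autoImplicit false

namespace Pool.Agent.Helper808.Hedge

/-- Rotational symmetry about the line spanned by `a`: `f x` depends only on `⟨a, x⟩` and `‖x‖`. -/
def ZonAt (a : E) (f : E → ℝ) : Prop :=
  ∀ x y : E, inner ℝ a x = inner ℝ a y → ‖x‖ = ‖y‖ → f x = f y

/-- `f` is the support function of a hedgehog of revolution (about some line of space): up to a
linear form (translation of the hedgehog) it is rotationally symmetric about some axis. -/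
def IsRev (f : E → ℝ) : Prop :=
  ∃ a b : E, ‖a‖ = 1 ∧ ZonAt a (fun x => f x - inner ℝ b x)

/-- Class `C²` off the origin. -/
def Smooth2 (f : E → ℝ) : Prop := ContDiffOn ℝ 2 f {x : E | x ≠ 0}

/-- A curvature-preserving one-parameter family of `C²` hedgehogs, given by the `1`-homogeneous
support functions `H t`, `t ∈ [0,1]`, continuous in `t` in the `C²` topology (the hypotheses of the
frozen statement `S08583`). -/
structure Family (H : ℝ → E → ℝ) : Prop where
  hom : ∀ t ∈ Set.Icc (0 : ℝ) 1, Hom1 (H t)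
  smooth : ∀ t ∈ Set.Icc (0 : ℝ) 1, Smooth2 (H t)
  cont0 : ContinuousOn (fun p : ℝ × E => H p.1 p.2) (Set.Icc (0 : ℝ) 1 ×ˢ {x : E | x ≠ 0})
  cont1 : ContinuousOn (fun p : ℝ × E => fderiv ℝ (H p.1) p.2)
    (Set.Icc (0 : ℝ) 1 ×ˢ {x : E | x ≠ 0})
  cont2 : ContinuousOn (fun p : ℝ × E => fderiv ℝ (fderiv ℝ (H p.1)) p.2)
    (Set.Icc (0 : ℝ) 1 ×ˢ {x : E | x ≠ 0})
  curv : ∀ t ∈ Set.Icc (0 : ℝ) 1, ∀ u ∈ S2, R (H t) u = R (H 0) u

end Pool.Agent.Helper808.Hedge
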