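import Pool.Agent.Helper808.Hedge.Defs

set_option autoImplicit false

namespace Pool.Agent.Helper808.Hedge

open MvPolynomial

/-! ### Algebra -/

/-- Euler operator. -/
noncomputable def Eu (p : Pol) : Pol := ∑ k : Fin 3, X k * pderiv k p

/-- `p - x . grad p`. -/
noncomputable def mu (p : Pol) : Pol := p - Eu p

/-- `x^T D^2 p x`. -/
noncomputable def Nn (p : Pol) : Pol := Eu (Eu p) - Eu p

/-- The Laplacian. -/
noncomputable def La (p : Pol) : Pol := ∑ k : Fin 3, pderiv k (pderiv k p)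

/-- Polarised (twice) second elementary symmetric function of the Hessian. -/
noncomputable def sg (p q : Pol) : Pol :=
  (pderiv 0 (pderiv 0 p) * pderiv 1 (pderiv 1 q) + pderiv 0 (pderiv 0 q) * pderiv 1 (pderiv 1 p)
      - 2 * (pderiv 0 (pderiv 1 p) * pderiv 0 (pderiv 1 q)))
  + (pderiv 0 (pderiv 0 p) * pderiv 2 (pderiv 2 q) + pderiv 0 (pderiv 0 q) * pderiv 2 (pderiv 2 p)
      - 2 * (pderiv 0 (pderiv 2 p) * pderiv 0 (pderiv 2 q)))
  + (pderiv 1 (pderiv 1 p) * pderiv 2 (pderiv 2 q) + pderiv 1 (pderiv 1 q) * pderiv 2 (pderiv 2 p)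
      - 2 * (pderiv 1 (pderiv 2 p) * pderiv 1 (pderiv 2 q)))

/-- Twice the polarised curvature polynomial. -/
noncomputable def B (p q : Pol) : Pol :=
  2 * (mu p * mu q) + (mu p * (La q - Nn q) + mu q * (La p - Nn p))
    + 2 * (∑ k : Fin 3, Eu (pderiv k p) * Eu (pderiv k q))
    - (La p * Nn q + La q * Nn p) + sg p q

/-- The quadric. -/
noncomputable def qs : Pol := X 0 ^ 2 + X 1 ^ 2 + X 2 ^ 2

/-- A linear form. -/
noncomputable def lin (b : Fin 3 → ℝ) : Pol := ∑ k : Fin 3, C (b k) * X k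

/-- All monomials of `p` have degree `< k`. -/
def Low (k : ℕ) (p : Pol) : Prop := ∀ m ∈ p.support, m.degree < k



namespace JA1

/-- derivative of a polynomial function -/
theorem hasFDerivAt_eval833 (p : Pol) (x : E) :
    HasFDerivAt (fun y : E => eval (fun i => y i) p)
      (∑ k : Fin 3, eval (fun i => x i) (pderiv k p) • (EuclideanSpace.proj k : E →L[ℝ] ℝ)) x := by
  induction p using MvPolynomial.induction_on with
  | C a =>
    have h := hasFDerivAt_const (𝕜 := ℝ) a x
    refine (h.congr_fderiv ?_).congr_of_eventuallyEq (Filter.Eventually.of_forall fun y => ?_)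
    · symm
      refine Finset.sum_eq_zero fun k _ => ?_
      rw [pderiv_C, map_zero, zero_smul]
    · exact eval_C a
  | add p q hp hq =>
    have h := hp.add hq
    refine (h.congr_fderiv ?_).congr_of_eventuallyEq (Filter.Eventually.of_forall fun y => ?_)
    · rw [← Finset.sum_add_distrib]
      refine Finset.sum_congr rfl fun k _ => ?_
      rw [map_add, map_add, add_smul]
    · show eval (fun i => y i) (p + q) = eval (fun i => y i) p + eval (fun i => y i) q
      rw [map_add]
  | mul_X p i hp =>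
    have hi : HasFDerivAt (fun y : E => y i) (EuclideanSpace.proj i : E →L[ℝ] ℝ) x :=
      (EuclideanSpace.proj i : E →L[ℝ] ℝ).hasFDerivAt
    have h := hp.mul hi
    refine (h.congr_fderiv ?_).congr_of_eventuallyEq (Filter.Eventually.of_forall fun y => ?_)
    · ext v
      have e1 : ∀ k : Fin 3, eval (fun i => x i) (pderiv k (p * X i))
          = eval (fun i => x i) (pderiv k p) * x i + eval (fun i => x i) p * (if k = i then 1 else 0) := by
        intro k
        rw [pderiv_mul, map_add, map_mul, map_mul, eval_X, pderiv_X]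
        congr 2
        by_cases hk : k = i
        · subst hk
          simp
        · rw [if_neg hk, Pi.single_eq_of_ne (Ne.symm hk), map_zero]
      simp only [e1]
      fin_cases i <;> simp [Fin.sum_univ_three] <;> ring
    · show eval (fun i => y i) (p * X i) = eval (fun i => y i) p * y i
      rw [map_mul, eval_X]

theorem hasFDerivAt_norm833 (x : E) (hx : x ≠ 0) :
    HasFDerivAt (fun y : E => ‖y‖) (‖x‖⁻¹ • innerSL ℝ x) x := by
  have h1 : HasFDerivAt (fun y : E => ‖y‖ ^ 2) (2 • innerSL ℝ x) x :=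
    (hasStrictFDerivAt_norm_sq x).hasFDerivAt
  have hn : ‖x‖ ^ 2 ≠ 0 := pow_ne_zero 2 (norm_ne_zero_iff.mpr hx)
  have h2 := h1.sqrt hn
  refine (h2.congr_fderiv ?_).congr_of_eventuallyEq (Filter.Eventually.of_forall fun y => ?_)
  · rw [Real.sqrt_sq (norm_nonneg x)]
    have hn' : ‖x‖ ≠ 0 := norm_ne_zero_iff.mpr hx
    ext v
    simp
    field_simp
  · exact (Real.sqrt_sq (norm_nonneg y)).symm

/-- Gradient of a 1-homogeneous function given by a polynomial on the sphere. -/
theorem grad_formula (F : E → ℝ) (hF : Hom1 F) (p : Pol)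
    (hp : ∀ u ∈ S2, F u = eval (fun i => u i) p) (x : E) (hx : x ≠ 0) :
    HasFDerivAt F (∑ j : Fin 3, (eval (fun i => (‖x‖⁻¹ • x) i) (X j * mu p + pderiv j p)) •
      (EuclideanSpace.proj j : E →L[ℝ] ℝ)) x := by
  have hn : ‖x‖ ≠ 0 := norm_ne_zero_iff.mpr hx
  have hnorm := hasFDerivAt_norm833 x hx
  have hinv : HasFDerivAt (fun y : E => ‖y‖⁻¹) (-(‖x‖ ^ 2)⁻¹ • (‖x‖⁻¹ • innerSL ℝ x)) x :=
    (hasDerivAt_inv hn).comp_hasFDerivAt x hnorm
  have hG : HasFDerivAt (fun y : E => ‖y‖⁻¹ • y)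
      (‖x‖⁻¹ • ContinuousLinearMap.id ℝ E
        + (-(‖x‖ ^ 2)⁻¹ • (‖x‖⁻¹ • innerSL ℝ x) : E →L[ℝ] ℝ).smulRight x) x :=
    hinv.smul (hasFDerivAt_id x)
  have hcomp := HasFDerivAt.comp (g := fun y : E => eval (fun i => y i) p)
    (f := fun y : E => ‖y‖⁻¹ • y) x (hasFDerivAt_eval833 p (‖x‖⁻¹ • x)) hG
  have hprod := hnorm.mul hcomp
  have hev : F =ᶠ[nhds x] fun y : E => ‖y‖ * eval (fun i => (‖y‖⁻¹ • y) i) p := by
    filter_upwards [isOpen_ne.mem_nhds hx] with y hy
    have hy' : ‖y‖ ≠ 0 := norm_ne_zero_iff.mpr hy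
    have hmem : ‖y‖⁻¹ • y ∈ S2 := by
      rw [mem_sphere_zero_iff_norm, norm_smul, norm_inv, norm_norm]
      exact inv_mul_cancel₀ hy'
    rw [← hp _ hmem, ← hF _ _ (norm_pos_iff.mpr hy), smul_smul, mul_inv_cancel₀ hy', one_smul]
  refine HasFDerivAt.congr_of_eventuallyEq ?_ hev
  refine hprod.congr_fderiv ?_
  obtain ⟨a, ha⟩ : ∃ a : Fin 3 → ℝ, ∀ k, a k = eval (fun i => (‖x‖⁻¹ • x) i) (pderiv k p) :=
    ⟨_, fun _ => rfl⟩
  have hX : ∀ j : Fin 3, eval (fun i => (‖x‖⁻¹ • x) i) (X j * mu p + pderiv j p)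
      = ‖x‖⁻¹ * x j * (eval (fun i => (‖x‖⁻¹ • x) i) p - ∑ k : Fin 3, ‖x‖⁻¹ * x k * a k) + a j := by
    intro j
    rw [map_add, map_mul, eval_X, mu, Eu, map_sub, map_sum, ha j]
    congr 2
    congr 1
    refine Finset.sum_congr rfl fun k _ => ?_
    rw [map_mul, eval_X, ha k]
    rfl
  ext v
  simp only [hX]
  simp only [← ha]
  obtain ⟨P, hP⟩ : ∃ P, P = eval (fun i => (‖x‖⁻¹ • x) i) p := ⟨_, rfl⟩
  simp [Fin.sum_univ_three, PiLp.inner_apply, ← hP]
  field_simp
  ring

end JA1


namespace JA2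

theorem hessA2_eval (q : Pol) (y : E) :
    HasFDerivAt (fun y : E => eval (fun i => y i) q)
      (∑ k : Fin 3, (eval (fun i => y i) (pderiv k q)) • (EuclideanSpace.proj k : E →L[ℝ] ℝ)) y := by
  induction q using MvPolynomial.induction_on with
  | C a =>
    simp only [eval_C, pderiv_C, map_zero, zero_smul, Finset.sum_const_zero]
    exact hasFDerivAt_const _ _
  | add p q hp hq =>
    simp only [map_add, add_smul, Finset.sum_add_distrib]
    exact hp.add hq
  | mul_X p n hp =>
    have hX : HasFDerivAt (fun y : E => y n) (EuclideanSpace.proj n : E →L[ℝ] ℝ) y :=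
      (EuclideanSpace.proj n : E →L[ℝ] ℝ).hasFDerivAt
    have h1 := hp.mul hX
    have e1 : (fun y : E => eval (fun i => y i) (p * X n)) =
        fun y : E => eval (fun i => y i) p * y n := by
      funext y
      rw [map_mul, eval_X]
    rw [e1]
    refine h1.congr_fderiv ?_
    apply ContinuousLinearMap.ext
    intro v
    simp only [pderiv_mul, map_add, map_mul, eval_X, pderiv_X, add_apply, smul_apply,
      sum_apply, smul_eq_mul, add_mul, Finset.sum_add_distrib, Finset.mul_sum]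
    have e2 : ∑ k : Fin 3, eval (fun i => y i) p * eval (fun i => y i) ((Pi.single k (1 : Pol) : Fin 3 → Pol) n) *
        (EuclideanSpace.proj k : E →L[ℝ] ℝ) v =
        eval (fun i => y i) p * (EuclideanSpace.proj n : E →L[ℝ] ℝ) v := by
      rw [Finset.sum_eq_single n]
      · simp
      · intro b _ hb
        rw [Pi.single_eq_of_ne (Ne.symm hb)]
        simp
      · intro hn
        exact absurd (Finset.mem_univ n) hn
    rw [e2, add_comm]
    congr 1
    apply Finset.sum_congr rfl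
    intro k _
    ring

theorem hessA2_norm (u : E) (hu : ‖u‖ = 1) :
    HasFDerivAt (fun x : E => ‖x‖⁻¹ • x)
      (ContinuousLinearMap.id ℝ E - (innerSL ℝ u : E →L[ℝ] ℝ).smulRight u) u := by
  have h1 : HasFDerivAt (fun x : E => ‖x‖ ^ 2) (2 • (innerSL ℝ u : E →L[ℝ] ℝ)) u := by
    have := (hasFDerivAt_id u).norm_sq
    refine this.congr_fderiv ?_
    rfl
  have h2 := h1.sqrt (by rw [hu]; norm_num)
  have h3 : HasFDerivAt (fun x : E => ‖x‖) (innerSL ℝ u : E →L[ℝ] ℝ) u := by
    have e : (fun x : E => ‖x‖) = fun x : E => Real.sqrt (‖x‖ ^ 2) := by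
      funext x
      rw [Real.sqrt_sq (norm_nonneg _)]
    rw [e]
    refine h2.congr_fderiv ?_
    apply ContinuousLinearMap.ext
    intro v
    rw [hu]
    simp
  have h4 : HasFDerivAt (fun x : E => ‖x‖⁻¹) (-(innerSL ℝ u : E →L[ℝ] ℝ)) u := by
    have h5 := (hasDerivAt_inv (x := ‖u‖) (by rw [hu]; norm_num)).comp_hasFDerivAt u h3
    refine h5.congr_fderiv ?_
    apply ContinuousLinearMap.ext
    intro v
    rw [hu]
    simp
  have h6 := h4.smul (hasFDerivAt_id u)
  refine h6.congr_fderiv ?_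
  apply ContinuousLinearMap.ext
  intro v
  simp [hu, sub_eq_add_neg]

/-- Second derivative. -/
theorem hess_formula (F : E → ℝ) (p : Pol)
    (hg : ∀ x : E, x ≠ 0 →
      HasFDerivAt F (∑ j : Fin 3, (eval (fun i => (‖x‖⁻¹ • x) i) (X j * mu p + pderiv j p)) •
        (EuclideanSpace.proj j : E →L[ℝ] ℝ)) x)
    (u : E) (hu : u ∈ S2) (i j : Fin 3) :
    M F u i j = ∑ k : Fin 3, eval (fun i => u i) (pderiv k (X j * mu p + pderiv j p)) *
      ((if k = i then 1 else 0) - u k * u i) := by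
  have hu1 : ‖u‖ = 1 := by simpa using hu
  have hu0 : u ≠ 0 := by
    intro h
    rw [h, norm_zero] at hu1
    norm_num at hu1
  have hnu : ‖u‖⁻¹ • u = u := by rw [hu1]; simp
  set G : Fin 3 → Pol := fun j => X j * mu p + pderiv j p with hG
  have hev : (fderiv ℝ F) =ᶠ[nhds u] fun x => ∑ j : Fin 3,
      (eval (fun i => (‖x‖⁻¹ • x) i) (G j)) • (EuclideanSpace.proj j : E →L[ℝ] ℝ) := by
    filter_upwards [isOpen_ne.mem_nhds hu0] with x hx
    exact (hg x hx).fderiv
  have hcomp : ∀ j : Fin 3, HasFDerivAt (fun x : E => eval (fun i => (‖x‖⁻¹ • x) i) (G j))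
      ((∑ k : Fin 3, (eval (fun i => u i) (pderiv k (G j))) • (EuclideanSpace.proj k : E →L[ℝ] ℝ)).comp
        (ContinuousLinearMap.id ℝ E - (innerSL ℝ u : E →L[ℝ] ℝ).smulRight u)) u := by
    intro j
    have h1 := hessA2_eval (G j) (‖u‖⁻¹ • u)
    have h2 := HasFDerivAt.comp (g := fun y : E => eval (fun i => y i) (G j))
      (f := fun x : E => ‖x‖⁻¹ • x) u h1 (hessA2_norm u hu1)
    rw [hnu] at h2
    exact h2
  have hD : HasFDerivAt (fun x : E => ∑ j : Fin 3,
      (eval (fun i => (‖x‖⁻¹ • x) i) (G j)) • (EuclideanSpace.proj j : E →L[ℝ] ℝ))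
      (∑ j : Fin 3, ((∑ k : Fin 3, (eval (fun i => u i) (pderiv k (G j))) •
        (EuclideanSpace.proj k : E →L[ℝ] ℝ)).comp
        (ContinuousLinearMap.id ℝ E - (innerSL ℝ u : E →L[ℝ] ℝ).smulRight u)).smulRight
        (EuclideanSpace.proj j : E →L[ℝ] ℝ)) u := by
    have := HasFDerivAt.fun_sum (u := Finset.univ) (fun j _ =>
      (hcomp j).smul_const (EuclideanSpace.proj j : E →L[ℝ] ℝ))
    exact this
  unfold M
  rw [hev.fderiv_eq, hD.fderiv]
  simp only [sum_apply, ContinuousLinearMap.smulRight_apply, smul_apply,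
    ContinuousLinearMap.comp_apply, sub_apply, ContinuousLinearMap.id_apply, smul_eq_mul,
    innerSL_apply_apply]
  rw [Finset.sum_eq_single j]
  · have hjj : (EuclideanSpace.proj j : E →L[ℝ] ℝ) (EuclideanSpace.single j (1:ℝ)) = 1 := by
      simp
    rw [hjj, mul_one]
    apply Finset.sum_congr rfl
    intro k _
    congr 1
    have hin : inner ℝ u (EuclideanSpace.single i (1:ℝ)) = u i := by
      rw [EuclideanSpace.inner_single_right]
      simp
    rw [hin]
    simp [mul_comm]
  · intro b _ hb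
    have : (EuclideanSpace.proj b : E →L[ℝ] ℝ) (EuclideanSpace.single j (1:ℝ)) = 0 := by
      simp [hb]
    rw [this, mul_zero]
  · intro h
    exact absurd (Finset.mem_univ j) h

end JA2


namespace JA3

theorem R_formula_comm (a b : Fin 3) (p : MvPolynomial (Fin 3) ℝ) :
    pderiv a (pderiv b p) = pderiv b (pderiv a p) := by
  have h : ⁅pderiv (R := ℝ) a, pderiv (R := ℝ) b⁆ = 0 := by
    apply MvPolynomial.derivation_ext
    intro i
    rw [Derivation.commutator_apply, pderiv_X, pderiv_X, Derivation.zero_apply]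
    simp only [Pi.single_apply]
    split_ifs <;> simp
  have h2 := congrArg (fun D => D p) h
  simp only [Derivation.commutator_apply, Derivation.zero_apply] at h2
  exact sub_eq_zero.1 h2

theorem R_formula_id (m v0 v1 v2 a b c d e f : ℝ) (h : v0 ^ 2 + v1 ^ 2 + v2 ^ 2 = 1)
    (w0 w1 w2 N : ℝ) (hw0 : w0 = a * v0 + b * v1 + c * v2) (hw1 : w1 = b * v0 + d * v1 + e * v2)
    (hw2 : w2 = c * v0 + e * v1 + f * v2) (hN : N = v0 * w0 + v1 * w1 + v2 * w2)
    (M00 M01 M02 M10 M11 M12 M20 M21 M22 : ℝ)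
    (h00 : M00 = m * (1 - v0 * v0) + a - v0 * w0 - v0 * w0 + v0 * v0 * N)
    (h01 : M01 = m * (0 - v0 * v1) + b - v0 * w1 - v1 * w0 + v0 * v1 * N)
    (h02 : M02 = m * (0 - v0 * v2) + c - v0 * w2 - v2 * w0 + v0 * v2 * N)
    (h11 : M11 = m * (1 - v1 * v1) + d - v1 * w1 - v1 * w1 + v1 * v1 * N)
    (h12 : M12 = m * (0 - v1 * v2) + e - v1 * w2 - v2 * w1 + v1 * v2 * N)
    (h22 : M22 = m * (1 - v2 * v2) + f - v2 * w2 - v2 * w2 + v2 * v2 * N)
    (h10 : M10 = M01) (h20 : M20 = M02) (h21 : M21 = M12) :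
    2 * ((M00 * M11 - M01 * M10) + (M00 * M22 - M02 * M20) + (M11 * M22 - M12 * M21))
      = 2 * m ^ 2 + 2 * (m * (a + d + f - N)) + 2 * (w0 ^ 2 + w1 ^ 2 + w2 ^ 2)
        - 2 * (a + d + f) * N + 2 * ((a * d - b ^ 2) + (a * f - c ^ 2) + (d * f - e ^ 2)) := by
  have t1 : M00 + M11 + M22 = 2 * m + (a + d + f) - N := by
    rw [h00, h11, h22]
    linear_combination (N - m) * h + 2 * hN
  have t2 : M00 ^ 2 + M11 ^ 2 + M22 ^ 2 + 2 * (M01 ^ 2 + M02 ^ 2 + M12 ^ 2)
      = 2 * m ^ 2 + 2 * (m * (a + d + f - N)) + (a ^ 2 + d ^ 2 + f ^ 2 + 2 * (b ^ 2 + c ^ 2 + e ^ 2))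
        - 2 * (w0 ^ 2 + w1 ^ 2 + w2 ^ 2) + N ^ 2 := by
    rw [h00, h11, h22, h01, h02, h12, hN, hw0, hw1, hw2]
    generalize hs : v0 ^ 2 + v1 ^ 2 + v2 ^ 2 = s at h
    linear_combination (m ^ 2 * (v0 ^ 2 + v1 ^ 2 + v2 ^ 2 - 1) - 2 * m * (v0 * (a * v0 + b * v1 + c * v2) + v1 * (b * v0 + d * v1 + e * v2) + v2 * (c * v0 + e * v1 + f * v2)) * (v0 ^ 2 + v1 ^ 2 + v2 ^ 2 - 2)
      + 2 * ((a * v0 + b * v1 + c * v2) ^ 2 + (b * v0 + d * v1 + e * v2) ^ 2 + (c * v0 + e * v1 + f * v2) ^ 2)
      + (v0 ^ 2 + v1 ^ 2 + v2 ^ 2 - 3) * (v0 * (a * v0 + b * v1 + c * v2) + v1 * (b * v0 + d * v1 + e * v2) + v2 * (c * v0 + e * v1 + f * v2)) ^ 2) * (hs.trans h)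
  have t3 : (M00 + M11 + M22) ^ 2 = (2 * m + (a + d + f) - N) ^ 2 := by rw [t1]
  rw [h10, h20, h21]
  linear_combination t3 - t2

theorem R_formula_dmu (k : Fin 3) (p : Pol) :
    pderiv k (mu p) = - ∑ l : Fin 3, X l * pderiv k (pderiv l p) := by
  unfold mu Eu
  simp only [map_sub, map_sum, pderiv_mul, pderiv_X, Pi.single_apply]
  rw [Finset.sum_add_distrib]
  have : ∑ x : Fin 3, (if x = k then (1 : Pol) else 0) * pderiv x p = pderiv k p := by
    rw [Finset.sum_eq_single k]
    · simp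
    · intro b _ hb
      simp [hb]
    · simp
  rw [this]
  ring

theorem R_formula_ev (v : Fin 3 → ℝ) (p : Pol) (k j : Fin 3) :
    eval v (pderiv k (X j * mu p + pderiv j p)) = (if j = k then eval v (mu p) else 0)
      - v j * (∑ l : Fin 3, v l * eval v (pderiv k (pderiv l p)))
      + eval v (pderiv k (pderiv j p)) := by
  rw [map_add, pderiv_mul, R_formula_dmu, pderiv_X, Pi.single_apply]
  simp only [map_add, map_mul, map_neg, map_sum, eval_X]
  split_ifs with h
  · simp
    ring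
  · simp

theorem R_formula_Eu (v : Fin 3 → ℝ) (p : Pol) (k : Fin 3) :
    eval v (Eu (pderiv k p)) = ∑ l : Fin 3, v l * eval v (pderiv k (pderiv l p)) := by
  unfold Eu
  simp only [map_mul, map_sum, eval_X]
  refine Finset.sum_congr rfl fun l _ => ?_
  rw [R_formula_comm]

theorem R_formula_Nn (v : Fin 3 → ℝ) (p : Pol) :
    eval v (Nn p) = ∑ k : Fin 3, v k * (∑ l : Fin 3, v l * eval v (pderiv k (pderiv l p))) := by
  have h1 : ∀ k : Fin 3, pderiv k (Eu p) = pderiv k p + ∑ l : Fin 3, X l * pderiv k (pderiv l p) := by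
    intro k
    have h := R_formula_dmu k p
    unfold mu at h
    rw [map_sub] at h
    linear_combination -h
  unfold Nn
  have h2 : Eu (Eu p) = ∑ k : Fin 3, X k * (pderiv k p + ∑ l : Fin 3, X l * pderiv k (pderiv l p)) := by
    conv_lhs => unfold Eu
    refine Finset.sum_congr rfl fun k _ => ?_
    rw [← h1 k]
    rfl
  have h3 : Eu (Eu p) - Eu p = ∑ k : Fin 3, X k * (∑ l : Fin 3, X l * pderiv k (pderiv l p)) := by
    rw [h2]
    simp only [mul_add, Finset.sum_add_distrib]
    unfold Eu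
    ring
  rw [h3]
  simp only [map_mul, map_sum, eval_X]

/-- The curvature function. -/
theorem R_formula (F : E → ℝ) (p : Pol) (u : E) (hu : u ∈ S2)
    (hM : ∀ i j : Fin 3, M F u i j =
      ∑ k : Fin 3, eval (fun i => u i) (pderiv k (X j * mu p + pderiv j p)) *
        ((if k = i then 1 else 0) - u k * u i)) :
    2 * R F u = eval (fun i => u i) (B p p) := by
  set v : Fin 3 → ℝ := fun i => u i with hv
  have hs : v 0 ^ 2 + v 1 ^ 2 + v 2 ^ 2 = 1 := by
    have h1 : ‖u‖ = 1 := by simpa using hu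
    have h2 := EuclideanSpace.real_norm_sq_eq u
    rw [h1, Fin.sum_univ_three] at h2
    simp only [hv]
    linarith
  have c10 := congrArg (eval v) (R_formula_comm 1 0 p)
  have c20 := congrArg (eval v) (R_formula_comm 2 0 p)
  have c21 := congrArg (eval v) (R_formula_comm 2 1 p)
  have hMM : ∀ i j : Fin 3, M F u i j = ∑ k : Fin 3, ((if j = k then eval v (mu p) else 0)
      - v j * (∑ l : Fin 3, v l * eval v (pderiv k (pderiv l p)))
      + eval v (pderiv k (pderiv j p))) * ((if k = i then 1 else 0) - v k * v i) := by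
    intro i j
    rw [hM i j]
    refine Finset.sum_congr rfl fun k _ => ?_
    rw [R_formula_ev]
  have key := R_formula_id (eval v (mu p)) (v 0) (v 1) (v 2) (eval v (pderiv 0 (pderiv 0 p)))
    (eval v (pderiv 0 (pderiv 1 p))) (eval v (pderiv 0 (pderiv 2 p)))
    (eval v (pderiv 1 (pderiv 1 p))) (eval v (pderiv 1 (pderiv 2 p)))
    (eval v (pderiv 2 (pderiv 2 p))) hs _ _ _ _ rfl rfl rfl rfl
    (M F u 0 0) (M F u 0 1) (M F u 0 2) (M F u 1 0) (M F u 1 1) (M F u 1 2)
    (M F u 2 0) (M F u 2 1) (M F u 2 2)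
    (by rw [hMM]; simp [Fin.sum_univ_three]; rw [c10, c20, c21]; ring)
    (by rw [hMM]; simp [Fin.sum_univ_three]; rw [c10, c20, c21]; ring)
    (by rw [hMM]; simp [Fin.sum_univ_three]; rw [c10, c20, c21]; ring)
    (by rw [hMM]; simp [Fin.sum_univ_three]; rw [c10, c20, c21]; ring)
    (by rw [hMM]; simp [Fin.sum_univ_three]; rw [c10, c20, c21]; ring)
    (by rw [hMM]; simp [Fin.sum_univ_three]; rw [c10, c20, c21]; ring)
    (by rw [hMM, hMM]; simp [Fin.sum_univ_three]; rw [c10, c20, c21]; ring)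
    (by rw [hMM, hMM]; simp [Fin.sum_univ_three]; rw [c10, c20, c21]; ring)
    (by rw [hMM, hMM]; simp [Fin.sum_univ_three]; rw [c10, c20, c21]; ring)
  have hR : 2 * R F u = 2 * ((M F u 0 0 * M F u 1 1 - M F u 0 1 * M F u 1 0)
    + (M F u 0 0 * M F u 2 2 - M F u 0 2 * M F u 2 0)
    + (M F u 1 1 * M F u 2 2 - M F u 1 2 * M F u 2 1)) := rfl
  rw [hR, key]
  unfold B sg
  unfold La
  simp only [map_add, map_mul, map_sub, R_formula_Eu, R_formula_Nn, Fin.sum_univ_three]
  have h2 : eval v (2 : Pol) = 2 := by simp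
  rw [h2, c10, c20, c21]
  ring

end JA3


namespace JB1

theorem Eu_add (p q : Pol) : Eu (p + q) = Eu p + Eu q := by
  simp only [Eu, map_add, mul_add, Finset.sum_add_distrib]

theorem Eu_sub (p q : Pol) : Eu (p - q) = Eu p - Eu q := by
  simp only [Eu, map_sub, mul_sub, Finset.sum_sub_distrib]

theorem pd_Cmul (k : Fin 3) (c : ℝ) (p : Pol) : pderiv k (C c * p) = C c * pderiv k p := by
  rw [pderiv_C_mul]

theorem Eu_Cmul (c : ℝ) (p : Pol) : Eu (C c * p) = C c * Eu p := by
  simp only [Eu, pd_Cmul, Finset.mul_sum]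
  refine Finset.sum_congr rfl fun k _ => ?_
  ring

theorem pd_lin (k : Fin 3) (b : Fin 3 → ℝ) : pderiv k (lin b) = C (b k) := by
  simp only [lin, Fin.sum_univ_three, map_add, pd_Cmul, pderiv_X]
  fin_cases k <;> simp

theorem Eu_C (a : ℝ) : Eu (C a) = 0 := by
  simp [Eu]

theorem Eu_lin (b : Fin 3 → ℝ) : Eu (lin b) = lin b := by
  simp only [Eu, pd_lin]
  simp only [lin]
  refine Finset.sum_congr rfl fun k _ => ?_
  ring

theorem B_polar (p q : Pol) : B (p + q) (p + q) - B (q - p) (q - p) = 4 * B p q := by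
  simp only [B, mu, Nn, La, sg, Eu_add, Eu_sub, map_add, map_sub, Fin.sum_univ_three]
  ring

theorem B_lin (p : Pol) (b : Fin 3 → ℝ) (c : ℝ) :
    B (C c * p + lin b) (C c * p + lin b) = C (c ^ 2) * B p p := by
  simp only [B, mu, Nn, La, sg, Eu_add, Eu_Cmul, Eu_lin, map_add, pd_Cmul, pd_lin, Eu_C,
    pderiv_C, Fin.sum_univ_three, map_pow, add_zero]
  ring

end JB1


namespace JB3

theorem B_sphere
    (hR : ∀ (F : E → ℝ), Hom1 F → ∀ p : Pol, (∀ u ∈ S2, F u = eval (fun i => u i) p) →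
      ∀ u ∈ S2, 2 * R F u = eval (fun i => u i) (B p p))
    (hlin : ∀ (p : Pol) (b : Fin 3 → ℝ) (c : ℝ),
      B (C c * p + lin b) (C c * p + lin b) = C (c ^ 2) * B p p)
    (p p' : Pol) (b : Fin 3 → ℝ) (c : ℝ)
    (h : ∀ u ∈ S2, eval (fun i => u i) p' = c * eval (fun i => u i) p + ∑ k : Fin 3, b k * u k) :
    ∀ u ∈ S2, eval (fun i => u i) (B p' p') = c ^ 2 * eval (fun i => u i) (B p p) := by
  intro u hu
  let F : E → ℝ := fun x => ‖x‖ * eval (fun i => (‖x‖⁻¹ • x) i) p'
  have hF : Hom1 F := by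
    intro x c hc
    have h1 : ‖c • x‖ = c * ‖x‖ := by
      rw [norm_smul, Real.norm_eq_abs, abs_of_pos hc]
    have h2 : ‖c • x‖⁻¹ • (c • x) = ‖x‖⁻¹ • x := by
      rw [h1, smul_smul]
      congr 1
      rw [mul_inv, mul_right_comm, inv_mul_cancel₀ hc.ne', one_mul]
    show ‖c • x‖ * eval (fun i => (‖c • x‖⁻¹ • (c • x)) i) p' = c * (‖x‖ * _)
    rw [h2, h1, mul_assoc]
  have hF1 : ∀ v ∈ S2, F v = eval (fun i => v i) p' := by
    intro v hv
    have h1 : ‖v‖ = 1 := by simpa using hv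
    show ‖v‖ * eval (fun i => (‖v‖⁻¹ • v) i) p' = _
    rw [h1, inv_one, one_smul, one_mul]
  have hF2 : ∀ v ∈ S2, F v = eval (fun i => v i) (C c * p + lin b) := by
    intro v hv
    rw [hF1 v hv, h v hv]
    simp [lin]
  have h3 := hR F hF p' hF1 u hu
  have h4 := hR F hF (C c * p + lin b) hF2 u hu
  rw [← h3, h4, hlin, map_mul, eval_C]

end JB3


theorem low_zero (k : ℕ) : Low k (0 : Pol) := by
  intro m hm; simp at hm

theorem low_iff (k : ℕ) (p : Pol) : Low k p ↔ ∀ m, coeff m p ≠ 0 → m.degree < k := by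
  unfold Low
  simp only [mem_support_iff]

theorem Low.add {k : ℕ} {p q : Pol} (hp : Low k p) (hq : Low k q) : Low k (p + q) := by
  rw [low_iff] at *
  intro m hm
  by_cases h : coeff m p = 0
  · apply hq
    intro h2
    apply hm
    rw [coeff_add, h, h2, add_zero]
  · exact hp m h

theorem Low.neg {k : ℕ} {p : Pol} (hp : Low k p) : Low k (-p) := by
  rw [low_iff] at *
  intro m hm
  apply hp
  intro h
  apply hm
  rw [coeff_neg, h, neg_zero]

theorem Low.sub {k : ℕ} {p q : Pol} (hp : Low k p) (hq : Low k q) : Low k (p - q) := by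
  rw [sub_eq_add_neg]
  exact hp.add hq.neg

theorem Low.sum {ι : Type*} {k : ℕ} (s : Finset ι) (f : ι → Pol) (h : ∀ a ∈ s, Low k (f a)) :
    Low k (∑ a ∈ s, f a) := by
  classical
  induction s using Finset.induction_on with
  | empty => simpa using low_zero k
  | insert a s ha ih =>
    rw [Finset.sum_insert ha]
    exact (h a (Finset.mem_insert_self a s)).add (ih (fun b hb => h b (Finset.mem_insert_of_mem hb)))

theorem Low.mono {k l : ℕ} {p : Pol} (hp : Low k p) (h : k ≤ l) : Low l p :=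
  fun m hm => lt_of_lt_of_le (hp m hm) h

theorem Low.mul {k l : ℕ} {p q : Pol} (hp : Low k p) (hq : Low (l + 1) q) : Low (k + l) (p * q) := by
  classical
  intro m hm
  have h := support_mul p q hm
  rw [Finset.mem_add] at h
  obtain ⟨a, ha, b, hb, rfl⟩ := h
  have h1 := hp a ha
  have h2 := hq b hb
  have h3 : (a + b).degree = a.degree + b.degree := by
    exact map_add Finsupp.degree a b
  rw [h3]
  omega

theorem Low.C_mul {k : ℕ} {p : Pol} (a : ℝ) (hp : Low k p) : Low k (C a * p) := by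
  rw [low_iff] at *
  intro m hm
  apply hp
  intro h
  apply hm
  rw [coeff_C_mul, h, mul_zero]

theorem low_monomial (k : ℕ) (m : Fin 3 →₀ ℕ) (c : ℝ) (h : c ≠ 0 → m.degree < k) :
    Low k (monomial m c) := by
  classical
  rw [low_iff]
  intro n hn
  rw [coeff_monomial] at hn
  split_ifs at hn with h1
  · rw [← h1]; exact h hn
  · exact absurd rfl hn

theorem Low.pderiv_X {k : ℕ} {p : Pol} (hp : Low k p) (b : Fin 3) (a : Fin 3) :
    Low k (X a * pderiv b p) := by
  classical
  rw [p.as_sum, map_sum, Finset.mul_sum]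
  apply Low.sum
  intro m hm
  rw [pderiv_monomial]
  rw [show (X a : Pol) = monomial (Finsupp.single a 1) 1 from rfl, monomial_mul]
  apply low_monomial
  intro hc
  have h1 := hp m hm
  have h2 : m b ≠ 0 := by
    intro h0
    apply hc
    rw [h0]; simp
  have h3 : m = (m - Finsupp.single b 1) + Finsupp.single b 1 := by
    ext c
    rw [Finsupp.add_apply, Finsupp.tsub_apply]
    by_cases hcb : b = c
    · subst hcb; rw [Finsupp.single_eq_same]; omega
    · rw [Finsupp.single_eq_of_ne' hcb]; omega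
  have h4 : m.degree = (m - Finsupp.single b 1).degree + 1 := by
    conv_lhs => rw [h3]
    rw [map_add, Finsupp.degree_single]
  rw [map_add, Finsupp.degree_single]
  omega

theorem Low.pderiv {k : ℕ} {p : Pol} (hp : Low (k + 1) p) (b : Fin 3) :
    Low k (pderiv b p) := by
  classical
  rw [p.as_sum, map_sum]
  apply Low.sum
  intro m hm
  rw [pderiv_monomial]
  apply low_monomial
  intro hc
  have h1 := hp m hm
  have h2 : m b ≠ 0 := by
    intro h0
    apply hc
    rw [h0]; simp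
  have h3 : m = (m - Finsupp.single b 1) + Finsupp.single b 1 := by
    ext c
    rw [Finsupp.add_apply, Finsupp.tsub_apply]
    by_cases hcb : b = c
    · subst hcb; rw [Finsupp.single_eq_same]; omega
    · rw [Finsupp.single_eq_of_ne' hcb]; omega
  have h4 : m.degree = (m - Finsupp.single b 1).degree + 1 := by
    conv_lhs => rw [h3]
    rw [map_add, Finsupp.degree_single]
  omega

theorem Low.pderiv' {k : ℕ} {p : Pol} (hp : Low k p) (b : Fin 3) :
    Low k (MvPolynomial.pderiv b p) :=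
  Low.pderiv (hp.mono (Nat.le_succ k)) b

theorem Low.Eu {k : ℕ} {p : Pol} (hp : Low k p) : Low k (Hedge.Eu p) :=
  Low.sum _ _ (fun a _ => hp.pderiv_X a a)

theorem low_of_hom {i : ℕ} {D : Pol} (hD : D.IsHomogeneous i) : Low (i + 1) D := by
  rw [low_iff]
  intro m hm
  have h := hD hm
  have h2 : m.degree = i := by
    rw [← h, Finsupp.degree_eq_weight_one]
    rfl
  omega

theorem Eu_add (p q : Pol) : Eu (p + q) = Eu p + Eu q := by
  unfold Eu
  simp only [map_add, mul_add, Finset.sum_add_distrib]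

theorem Eu_C_mul (a : ℝ) (p : Pol) : Eu (C a * p) = C a * Eu p := by
  unfold Eu
  rw [Finset.mul_sum]
  refine Finset.sum_congr rfl (fun k _ => ?_)
  rw [pderiv_C_mul]
  ring

theorem Eu_hom {i : ℕ} {D : Pol} (hD : D.IsHomogeneous i) : Eu D = C (i : ℝ) * D := by
  unfold Eu
  rw [hD.sum_X_mul_pderiv]
  rw [nsmul_eq_mul]
  simp

/-- top coefficient -/
def Top (i : ℕ) (D : Pol) (a : ℝ) (r : Pol) : Prop := Low i (r - C a * D)

theorem Top.low {i : ℕ} {D : Pol} {a : ℝ} {r : Pol} (hD : D.IsHomogeneous i) (h : Top i D a r) :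
    Low (i + 1) r := by
  have h1 : r = (r - C a * D) + C a * D := by ring
  rw [h1]
  exact (h.mono (Nat.le_succ i)).add ((low_of_hom hD).C_mul a)

theorem Top.sub {i : ℕ} {D : Pol} {a b : ℝ} {r s : Pol} (h : Top i D a r) (h' : Top i D b s) :
    Top i D (a - b) (r - s) := by
  unfold Top at *
  have h1 : r - s - C (a - b) * D = (r - C a * D) - (s - C b * D) := by
    rw [map_sub]; ring
  rw [h1]
  exact Low.sub h h'

theorem Top.of_low {i : ℕ} {D : Pol} {r : Pol} (h : Low i r) : Top i D 0 r := by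
  unfold Top
  simpa using h

theorem Top.Eu {i : ℕ} {D : Pol} {a : ℝ} {r : Pol} (hD : D.IsHomogeneous i) (h : Top i D a r) :
    Top i D (a * i) (Hedge.Eu r) := by
  unfold Top at *
  have h1 : Hedge.Eu r - C (a * i) * D = Hedge.Eu (r - C a * D) := by
    have h2 : Hedge.Eu r = Hedge.Eu (r - C a * D) + Hedge.Eu (C a * D) := by
      rw [← Eu_add]; congr 1; ring
    rw [h2, Eu_C_mul, Eu_hom hD, map_mul]
    ring
  rw [h1]
  exact h.Eu

theorem Top.mul {i j : ℕ} {D H : Pol} {a b : ℝ} {r s : Pol} (hD : D.IsHomogeneous i)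
    (hH : H.IsHomogeneous j) (h : Top i D a r) (h' : Top j H b s) :
    Low (i + j) (r * s - C (a * b) * (D * H)) := by
  have h1 : r * s - C (a * b) * (D * H) = (r - C a * D) * s + (s - C b * H) * (C a * D) := by
    rw [map_mul]; ring
  rw [h1]
  apply Low.add
  · exact Low.mul h (h'.low hH)
  · rw [add_comm i j]
    exact Low.mul h' ((low_of_hom hD).C_mul a)

theorem low_mul' {i j : ℕ} {r s : Pol} (h : Low i r) (h' : Low j s) : Low (i + j) (r * s) :=
  h.mul (h'.mono (Nat.le_succ j))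

theorem low_mul'' {i j : ℕ} {r s : Pol} (h : Low i r) (h' : Low (j + 1) s) : Low (i + j) (r * s) :=
  h.mul h'

theorem low_mul_two {k : ℕ} {r : Pol} (h : Low k r) : Low k (2 * r) := by
  have : (2 : Pol) * r = r + r := by ring
  rw [this]
  exact h.add h

theorem B_top (p q D H : Pol) (i j : ℕ) (hD : D.IsHomogeneous i) (hH : H.IsHomogeneous j)
    (hp : Low i (p - D)) (hq : Low j (q - H)) :
    Low (i + j) (B p q - C (((i : ℝ) - 1) * ((j : ℝ) - 1) * ((i : ℝ) + (j : ℝ) + 2)) * (D * H)) := by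
  have tp : Top i D 1 p := by unfold Top; simpa using hp
  have tq : Top j H 1 q := by unfold Top; simpa using hq
  have lp : Low (i + 1) p := tp.low hD
  have lq : Low (j + 1) q := tq.low hH
  have tEp := tp.Eu hD
  have tEq := tq.Eu hH
  have tmp : Top i D (1 - 1 * i) (mu p) := tp.sub tEp
  have tmq : Top j H (1 - 1 * j) (mu q) := tq.sub tEq
  have tNp : Top i D (1 * i * i - 1 * i) (Nn p) := (tEp.Eu hD).sub tEp
  have tNq : Top j H (1 * j * j - 1 * j) (Nn q) := (tEq.Eu hH).sub tEq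
  have dp : ∀ a b : Fin 3, Low i (pderiv a (pderiv b p)) := fun a b => (lp.pderiv b).pderiv' a
  have dq : ∀ a b : Fin 3, Low j (pderiv a (pderiv b q)) := fun a b => (lq.pderiv b).pderiv' a
  have Lp : Low i (La p) := Low.sum _ _ (fun a _ => dp a a)
  have Lq : Low j (La q) := Low.sum _ _ (fun a _ => dq a a)
  have P1 := tmp.mul hD hH tmq
  have P2 := tmp.mul hD hH ((Top.of_low (D := H) Lq).sub tNq)
  have P3 := tmq.mul hH hD ((Top.of_low (D := D) Lp).sub tNp)
  rw [add_comm j i] at P3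
  have P4 : ∀ k : Fin 3, Low (i + j) (Eu (pderiv k p) * Eu (pderiv k q)) := fun k =>
    low_mul' ((lp.pderiv k).Eu) ((lq.pderiv k).Eu)
  have P4' : Low (i + j) (∑ k : Fin 3, Eu (pderiv k p) * Eu (pderiv k q)) :=
    Low.sum _ _ (fun k _ => P4 k)
  have P5 : Low (i + j) (La p * Nn q) := low_mul'' Lp (tNq.low hH)
  have P6 : Low (i + j) (La q * Nn p) := by
    rw [add_comm i j]
    exact low_mul'' Lq (tNp.low hD)
  have m1 : ∀ a b c d : Fin 3, Low (i + j) (pderiv a (pderiv b p) * pderiv c (pderiv d q)) :=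
    fun a b c d => low_mul' (dp a b) (dq c d)
  have m2 : ∀ a b c d : Fin 3, Low (i + j) (pderiv a (pderiv b q) * pderiv c (pderiv d p)) := by
    intro a b c d
    rw [add_comm i j]
    exact low_mul' (dq a b) (dp c d)
  have P7 : Low (i + j) (sg p q) := by
    unfold sg
    exact ((((m1 _ _ _ _).add (m2 _ _ _ _)).sub (low_mul_two (m1 _ _ _ _))).add
      (((m1 _ _ _ _).add (m2 _ _ _ _)).sub (low_mul_two (m1 _ _ _ _)))).add
      (((m1 _ _ _ _).add (m2 _ _ _ _)).sub (low_mul_two (m1 _ _ _ _)))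
  have key : B p q - C (((i : ℝ) - 1) * ((j : ℝ) - 1) * ((i : ℝ) + (j : ℝ) + 2)) * (D * H)
      = 2 * (mu p * mu q - C ((1 - 1 * (i : ℝ)) * (1 - 1 * (j : ℝ))) * (D * H))
        + (mu p * (La q - Nn q) - C ((1 - 1 * (i : ℝ)) * (0 - (1 * (j : ℝ) * j - 1 * j))) * (D * H))
        + (mu q * (La p - Nn p) - C ((1 - 1 * (j : ℝ)) * (0 - (1 * (i : ℝ) * i - 1 * i))) * (H * D))
        + 2 * (∑ k : Fin 3, Eu (pderiv k p) * Eu (pderiv k q))
        - (La p * Nn q + La q * Nn p) + sg p q := by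
    unfold B
    simp only [map_mul, map_sub, map_add, map_one, map_zero, map_ofNat]
    ring
  rw [key]
  exact (((((low_mul_two P1).add P2).add P3).add (low_mul_two P4')).sub (P5.add P6)).add P7


namespace JC2

theorem eval_scale (p : Pol) (n : ℕ) (hp : p.IsHomogeneous n) (c : ℝ) (x : Fin 3 → ℝ) :
    eval (fun i => c * x i) p = c ^ n * eval x p := by
  rw [MvPolynomial.eval_eq', MvPolynomial.eval_eq', Finset.mul_sum]
  refine Finset.sum_congr rfl (fun d hd => ?_)
  have h1 : d.degree = n := by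
    have h2 := hp (MvPolynomial.mem_support_iff.mp hd)
    rw [← h2, Finsupp.degree_eq_weight_one]
    rfl
  have h3 : ∑ i, d i = n := by rw [← h1, Finsupp.degree_eq_sum]
  have h4 : ∏ i, (c * x i) ^ d i = c ^ n * ∏ i, x i ^ d i := by
    rw [← h3, ← Finset.prod_pow_eq_pow_sum, ← Finset.prod_mul_distrib]
    refine Finset.prod_congr rfl (fun i _ => ?_)
    rw [mul_pow]
  rw [h4]; ring

theorem low_decomp (k : ℕ) (Q : Pol) (h : Low k Q) :
    Q = ∑ l ∈ Finset.range k, homogeneousComponent l Q := by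
  ext d
  rw [MvPolynomial.coeff_sum]
  simp only [MvPolynomial.coeff_homogeneousComponent]
  rw [Finset.sum_ite_eq]
  split_ifs with h1
  · rfl
  · by_contra h2
    exact h1 (Finset.mem_range.mpr (h d (MvPolynomial.mem_support_iff.mpr h2)))

theorem eval_qs (x : Fin 3 → ℝ) : eval x qs = x 0 ^ 2 + x 1 ^ 2 + x 2 ^ 2 := by
  simp [qs]

theorem sphere_vanish (P T : Pol) (k : ℕ) (hT : T.IsHomogeneous k) (hP : Low k (P - T))
    (h0 : ∀ u ∈ S2, eval (fun i => u i) P = 0) (x : Fin 3 → ℝ) (s : ℝ) (hs : s ≠ 0)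
    (hsx : s ^ 2 = x 0 ^ 2 + x 1 ^ 2 + x 2 ^ 2) :
    eval x T + ∑ l ∈ Finset.range k, s ^ (k - l) * eval x (homogeneousComponent l (P - T)) = 0 := by
  have hu : (WithLp.toLp 2 (fun i => s⁻¹ * x i) : E) ∈ S2 := by
    rw [mem_sphere_zero_iff_norm, EuclideanSpace.norm_eq, Fin.sum_univ_three]
    simp only [Real.norm_eq_abs, sq_abs]
    have : (s⁻¹ * x 0) ^ 2 + (s⁻¹ * x 1) ^ 2 + (s⁻¹ * x 2) ^ 2 = 1 := by
      have h1 : (s⁻¹ * x 0) ^ 2 + (s⁻¹ * x 1) ^ 2 + (s⁻¹ * x 2) ^ 2 =
        (s⁻¹) ^ 2 * (x 0 ^ 2 + x 1 ^ 2 + x 2 ^ 2) := by ring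
      rw [h1, ← hsx, inv_pow, inv_mul_cancel₀ (pow_ne_zero 2 hs)]
    rw [this, Real.sqrt_one]
  have h1 := h0 _ hu
  have h1' : eval (fun i => s⁻¹ * x i) P = 0 := h1
  have hPd : P = T + ∑ l ∈ Finset.range k, homogeneousComponent l (P - T) := by
    rw [← low_decomp k (P - T) hP]; ring
  rw [hPd, map_add, map_sum] at h1'
  rw [eval_scale T k hT] at h1'
  have h2 : ∑ l ∈ Finset.range k, eval (fun i => s⁻¹ * x i) (homogeneousComponent l (P - T)) =
      ∑ l ∈ Finset.range k, s⁻¹ ^ l * eval x (homogeneousComponent l (P - T)) :=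
    Finset.sum_congr rfl (fun l _ => eval_scale _ l (homogeneousComponent_isHomogeneous l _) _ _)
  rw [h2] at h1'
  have h3 := congrArg (fun t => s ^ k * t) h1'
  simp only [mul_add, mul_zero, Finset.mul_sum] at h3
  rw [← h3]
  congr 1
  · rw [← mul_assoc, ← mul_pow, mul_inv_cancel₀ hs, one_pow, one_mul]
  · refine Finset.sum_congr rfl (fun l hl => ?_)
    rw [← mul_assoc]
    congr 1
    have hlk : l ≤ k := (Finset.mem_range.mp hl).le
    obtain ⟨m, rfl⟩ := Nat.exists_eq_add_of_le hlk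
    rw [Nat.add_sub_cancel_left, pow_add, inv_pow]
    field_simp

theorem dvd_of_sphere (P T : Pol) (k : ℕ) (hT : T.IsHomogeneous k) (hP : Low k (P - T))
    (h0 : ∀ u ∈ S2, eval (fun i => u i) P = 0) : qs ∣ T := by
  have hqs : (qs : Pol) ≠ 0 := by
    intro h
    have := congrArg (eval (fun _ : Fin 3 => (1 : ℝ))) h
    rw [eval_qs, map_zero] at this
    norm_num at this
  have hD : qs ∣ ∑ l ∈ Finset.range k, (if Even (k - l) then
      qs ^ ((k - l) / 2) * homogeneousComponent l (P - T) else 0) := by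
    refine Finset.dvd_sum (fun l hl => ?_)
    split_ifs with he
    · have hlk : l < k := Finset.mem_range.mp hl
      have h1 : (k - l) / 2 ≠ 0 := by
        obtain ⟨m, hm⟩ := he
        omega
      exact Dvd.dvd.mul_right (dvd_pow_self _ h1) _
    · exact dvd_zero _
  have hW : (T + ∑ l ∈ Finset.range k, (if Even (k - l) then
      qs ^ ((k - l) / 2) * homogeneousComponent l (P - T) else 0)) * qs = 0 := by
    apply MvPolynomial.funext
    intro x
    rw [map_mul, map_zero]
    by_cases hx : eval x qs = 0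
    · rw [hx, mul_zero]
    · have hpos : 0 < x 0 ^ 2 + x 1 ^ 2 + x 2 ^ 2 := by
        rw [eval_qs] at hx
        exact lt_of_le_of_ne (by positivity) (Ne.symm hx)
      have hr := Real.sqrt_pos.mpr hpos
      have hsq := Real.sq_sqrt hpos.le
      set r := Real.sqrt (x 0 ^ 2 + x 1 ^ 2 + x 2 ^ 2) with hrdef
      have e1 := sphere_vanish P T k hT hP h0 x r hr.ne' hsq
      have e2 := sphere_vanish P T k hT hP h0 x (-r) (neg_ne_zero.mpr hr.ne') (by rw [neg_sq]; exact hsq)
      have e3 : eval x (T + ∑ l ∈ Finset.range k, (if Even (k - l) then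
          qs ^ ((k - l) / 2) * homogeneousComponent l (P - T) else 0)) =
          ((eval x T + ∑ l ∈ Finset.range k, r ^ (k - l) * eval x (homogeneousComponent l (P - T))) +
          (eval x T + ∑ l ∈ Finset.range k, (-r) ^ (k - l) * eval x (homogeneousComponent l (P - T)))) / 2 := by
        have e4 : ∀ a b c : ℝ, (a + b + (a + c)) / 2 = a + (b + c) / 2 := by intro a b c; ring
        rw [e4, ← Finset.sum_add_distrib, Finset.sum_div, map_add, map_sum]
        congr 1
        refine Finset.sum_congr rfl (fun l hl => ?_)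
        split_ifs with he
        · rw [map_mul, map_pow, eval_qs, ← hsq, he.neg_pow]
          obtain ⟨m, hm⟩ := he
          have hm2 : (k - l) / 2 = m := by omega
          rw [hm2, ← pow_mul, hm]
          ring
        · rw [map_zero]
          have ho : Odd (k - l) := Nat.not_even_iff_odd.mp he
          rw [ho.neg_pow]
          ring
      rw [e3, e1, e2]
      ring
  have hW0 := (mul_eq_zero.mp hW).resolve_right hqs
  have hT' : T = -(∑ l ∈ Finset.range k, (if Even (k - l) then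
      qs ^ ((k - l) / 2) * homogeneousComponent l (P - T) else 0)) := eq_neg_of_add_eq_zero_left hW0
  rw [hT']
  exact (dvd_neg).mpr hD

end JC2


namespace JC3

theorem prime_qs_key (A B : Polynomial ℝ) (r : ℝ) (hr : r ≠ 0)
    (h : A * B = Polynomial.C r * Polynomial.X ^ 2) :
    ∃ c : ℝ, c ≠ 0 ∧ ∃ i : ℕ, i ≤ 2 ∧ A = Polynomial.C c * Polynomial.X ^ i := by
  have h1 : A ∣ Polynomial.X ^ 2 := by
    refine ⟨B * Polynomial.C r⁻¹, ?_⟩
    rw [← mul_assoc, h, mul_right_comm, ← Polynomial.C_mul, mul_inv_cancel₀ hr, Polynomial.C_1,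
      one_mul]
  obtain ⟨i, hi, hA⟩ := (dvd_prime_pow Polynomial.prime_X 2).1 h1
  obtain ⟨u, hu⟩ := hA.symm
  obtain ⟨c, hc, hc'⟩ := Polynomial.isUnit_iff.1 u.isUnit
  refine ⟨c, hc.ne_zero, i, hi, ?_⟩
  rw [← hu, ← hc', mul_comm]

theorem prime_qs_eval (p : Pol) (w : Fin 3 → ℝ) (t : ℝ) :
    Polynomial.eval t (aeval (fun i => Polynomial.C (w i) * Polynomial.X) p) =
      eval (fun i => w i * t) p := by
  induction p using MvPolynomial.induction_on with
  | C r => simp
  | add p q hp hq => simp [hp, hq]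
  | mul_X p i hp => simp [hp]

theorem prime_qs_unit (a b : Pol) (hab : qs = a * b) (h0 : eval (fun _ => (0 : ℝ)) a ≠ 0) :
    IsUnit a := by
  have h : a = C (eval (fun _ => (0 : ℝ)) a) := by
    apply MvPolynomial.funext
    intro w
    rw [eval_C]
    by_cases hw : w = fun _ => 0
    · rw [hw]
    · have hr : w 0 ^ 2 + w 1 ^ 2 + w 2 ^ 2 ≠ 0 := by
        intro hz
        apply hw
        have h0 : w 0 = 0 := by nlinarith [sq_nonneg (w 0), sq_nonneg (w 1), sq_nonneg (w 2)]
        have h1 : w 1 = 0 := by nlinarith [sq_nonneg (w 0), sq_nonneg (w 1), sq_nonneg (w 2)]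
        have h2 : w 2 = 0 := by nlinarith [sq_nonneg (w 0), sq_nonneg (w 1), sq_nonneg (w 2)]
        funext i
        fin_cases i
        · exact h0
        · exact h1
        · exact h2
      have hm : aeval (fun i => Polynomial.C (w i) * Polynomial.X) a *
          aeval (fun i => Polynomial.C (w i) * Polynomial.X) b =
          Polynomial.C (w 0 ^ 2 + w 1 ^ 2 + w 2 ^ 2) * Polynomial.X ^ 2 := by
        rw [← map_mul, ← hab]
        simp only [qs, map_add, map_pow, aeval_X]
        ring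
      obtain ⟨c, hc, i, hi, hA⟩ := prime_qs_key _ _ _ hr hm
      have e0 := prime_qs_eval a w 0
      have e1 := prime_qs_eval a w 1
      rw [hA] at e0 e1
      simp only [mul_zero] at e0
      simp only [mul_one] at e1
      rcases Nat.eq_zero_or_pos i with hi0 | hi0
      · subst hi0
        simp only [pow_zero, mul_one, Polynomial.eval_C] at e0 e1
        rw [← e0, ← e1]
      · exfalso
        apply h0
        rw [← e0]
        simp [hi0.ne']
  rw [h]
  exact (isUnit_iff_ne_zero.2 h0).map C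

theorem prime_qs_odd (a b : Pol) (hab : qs = a * b) (ha : eval (fun _ => (0 : ℝ)) a = 0)
    (hb : eval (fun _ => (0 : ℝ)) b = 0) (w : Fin 3 → ℝ)
    (hr : w 0 ^ 2 + w 1 ^ 2 + w 2 ^ 2 ≠ 0) :
    eval (fun i => w i * (-1)) a = - eval w a := by
  have hm : aeval (fun i => Polynomial.C (w i) * Polynomial.X) a *
      aeval (fun i => Polynomial.C (w i) * Polynomial.X) b =
      Polynomial.C (w 0 ^ 2 + w 1 ^ 2 + w 2 ^ 2) * Polynomial.X ^ 2 := by
    rw [← map_mul, ← hab]
    simp only [qs, map_add, map_pow, aeval_X]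
    ring
  have hm' := hm
  rw [mul_comm] at hm'
  obtain ⟨c, hc, i, hi, hA⟩ := prime_qs_key _ _ _ hr hm
  obtain ⟨c', hc', j, hj, hB⟩ := prime_qs_key _ _ _ hr hm'
  have e0 := prime_qs_eval a w 0
  have e1 := prime_qs_eval a w 1
  have e2 := prime_qs_eval a w (-1)
  have f0 := prime_qs_eval b w 0
  rw [hA] at e0 e1 e2
  rw [hB] at f0
  simp only [mul_zero] at e0 f0
  simp only [mul_one] at e1
  rw [ha] at e0
  rw [hb] at f0
  have hi1 : 1 ≤ i := by
    by_contra hcon
    have : i = 0 := by omega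
    subst this
    simp only [pow_zero, mul_one, Polynomial.eval_C] at e0
    exact hc e0
  have hj1 : 1 ≤ j := by
    by_contra hcon
    have : j = 0 := by omega
    subst this
    simp only [pow_zero, mul_one, Polynomial.eval_C] at f0
    exact hc' f0
  have hdeg : i + j = 2 := by
    have h1 : (Polynomial.C (c * c') * Polynomial.X ^ (i + j) : Polynomial ℝ) =
        Polynomial.C (w 0 ^ 2 + w 1 ^ 2 + w 2 ^ 2) * Polynomial.X ^ 2 := by
      rw [← hm, hA, hB, Polynomial.C_mul, pow_add]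
      ring
    have h2 := congrArg Polynomial.natDegree h1
    rw [Polynomial.natDegree_C_mul_X_pow _ _ (mul_ne_zero hc hc'),
      Polynomial.natDegree_C_mul_X_pow _ _ hr] at h2
    exact h2
  have hi2 : i = 1 := by omega
  subst hi2
  simp only [pow_one, Polynomial.eval_mul, Polynomial.eval_C, Polynomial.eval_X, mul_one] at e1 e2
  have e3 : eval w a = c := e1.symm
  rw [← e2, e3]
  ring

theorem prime_qs_circle (a b : Pol) (hab : qs = a * b) (ha : eval (fun _ => (0 : ℝ)) a = 0)
    (hb : eval (fun _ => (0 : ℝ)) b = 0) : False := by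
  let w : ℝ → Fin 3 → ℝ := fun θ => ![Real.cos θ, Real.sin θ, 0]
  have hw : ∀ θ, (w θ) 0 ^ 2 + (w θ) 1 ^ 2 + (w θ) 2 ^ 2 = 1 := by
    intro θ
    simp only [w, Matrix.cons_val_zero, Matrix.cons_val_one, Matrix.cons_val]
    have := Real.sin_sq_add_cos_sq θ
    linarith
  have hne : ∀ θ, eval (w θ) a ≠ 0 := by
    intro θ h0
    have h1 := congrArg (eval (w θ)) hab
    rw [map_mul, h0, zero_mul] at h1
    simp only [qs, map_add, map_pow, eval_X] at h1
    have := hw θ
    linarith
  have hcont : Continuous fun θ => eval (w θ) a := by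
    refine (MvPolynomial.continuous_eval a).comp ?_
    refine continuous_pi fun i => ?_
    fin_cases i
    · exact Real.continuous_cos
    · exact Real.continuous_sin
    · exact continuous_const
  have hpi : eval (w Real.pi) a = - eval (w 0) a := by
    rw [← prime_qs_odd a b hab ha hb (w 0) (by rw [hw 0]; norm_num)]
    congr 1
    congr 1
    funext i
    fin_cases i <;> simp [w]
  have hz : (0 : ℝ) ∈ Set.uIcc (eval (w 0) a) (eval (w Real.pi) a) := by
    rw [hpi, Set.mem_uIcc]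
    rcases le_total 0 (eval (w 0) a) with h | h
    · right; constructor <;> linarith
    · left; constructor <;> linarith
  obtain ⟨θ, _, hθ⟩ := intermediate_value_uIcc (f := fun θ => eval (w θ) a) hcont.continuousOn hz
  exact hne θ hθ

theorem prime_qs : Prime qs := by
  apply Irreducible.prime
  constructor
  · intro hu
    have h1 := hu.map (eval (fun _ => (0 : ℝ)))
    simp [qs] at h1
  · intro a b hab
    by_cases ha : eval (fun _ => (0 : ℝ)) a = 0
    · by_cases hb : eval (fun _ => (0 : ℝ)) b = 0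
      · exact (prime_qs_circle a b hab ha hb).elim
      · exact Or.inr (prime_qs_unit b a (hab.trans (mul_comm a b)) hb)
    · exact Or.inl (prime_qs_unit a b hab ha)

end JC3


namespace JC4

theorem low_totalDegree {k : ℕ} {p : Pol} (hk : 0 < k) (h : Low k p) : p.totalDegree < k := by
  unfold MvPolynomial.totalDegree
  rw [Finset.sup_lt_iff (by simpa using hk)]
  intro m hm
  exact h m hm

theorem deg_le_of_mem {p : Pol} {m : Fin 3 →₀ ℕ} (h : m ∈ p.support) : m.degree ≤ p.totalDegree :=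
  le_totalDegree h

theorem hom_top_ne {p : Pol} (hp : p ≠ 0) : homogeneousComponent p.totalDegree p ≠ 0 := by
  obtain ⟨m, hm, hm2⟩ := Finset.exists_mem_eq_sup p.support (by simpa using hp)
    (fun s : Fin 3 →₀ ℕ => s.degree)
  intro h0
  have h1 : coeff m (homogeneousComponent p.totalDegree p) = 0 := by rw [h0]; simp
  rw [coeff_homogeneousComponent] at h1
  have h2 : m.degree = p.totalDegree := hm2.symm
  rw [if_pos h2] at h1
  exact (mem_support_iff.mp hm) h1

theorem low_sub {p : Pol} : Low p.totalDegree (p - homogeneousComponent p.totalDegree p) := by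
  intro m hm
  rw [mem_support_iff, coeff_sub, coeff_homogeneousComponent] at hm
  by_cases h : m.degree = p.totalDegree
  · rw [if_pos h, sub_self] at hm
    exact absurd rfl hm
  · rw [if_neg h, sub_zero] at hm
    exact lt_of_le_of_ne (deg_le_of_mem (mem_support_iff.mpr hm)) h

theorem deg_one_eq_single {m : Fin 3 →₀ ℕ} (h : m.degree = 1) : ∃ k, m = Finsupp.single k 1 := by
  rw [Finsupp.degree_eq_sum, Fin.sum_univ_three] at h
  have h3 : (m 0 = 1 ∧ m 1 = 0 ∧ m 2 = 0) ∨ (m 0 = 0 ∧ m 1 = 1 ∧ m 2 = 0) ∨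
      (m 0 = 0 ∧ m 1 = 0 ∧ m 2 = 1) := by omega
  rcases h3 with h | h | h
  · refine ⟨0, Finsupp.ext fun i => ?_⟩
    fin_cases i <;> simp [h]
  · refine ⟨1, Finsupp.ext fun i => ?_⟩
    fin_cases i <;> simp [h]
  · refine ⟨2, Finsupp.ext fun i => ?_⟩
    fin_cases i <;> simp [h]

theorem low_one {p : Pol} (h : p.totalDegree ≤ 1) :
    Low 1 (p - lin (fun k => coeff (Finsupp.single k 1) p)) := by
  intro m hm
  rw [mem_support_iff, coeff_sub] at hm
  have hl : coeff m (lin (fun k => coeff (Finsupp.single k 1) p)) =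
      ∑ k : Fin 3, (if Finsupp.single k 1 = m then coeff (Finsupp.single k 1) p else 0) := by
    unfold lin
    rw [coeff_sum]
    refine Finset.sum_congr rfl fun k _ => ?_
    rw [coeff_C_mul, coeff_X']
    split_ifs <;> simp
  rw [hl] at hm
  by_contra hcon
  push Not at hcon
  rcases hcon.eq_or_lt with h1 | h1
  · obtain ⟨k, rfl⟩ := deg_one_eq_single h1.symm
    apply hm
    rw [Finset.sum_eq_single k]
    · simp
    · intro j _ hj
      rw [if_neg]
      intro h2
      rw [Finsupp.single_left_inj one_ne_zero] at h2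
      exact hj h2
    · simp
  · apply hm
    rw [Finset.sum_eq_zero]
    · rw [sub_zero]
      by_contra h2
      have := deg_le_of_mem (mem_support_iff.mpr h2)
      omega
    · intro j _
      rw [if_neg]
      intro h2
      rw [← h2, Finsupp.degree_single] at h1
      omega

theorem qs_hom : qs.IsHomogeneous 2 := by
  unfold qs
  exact (((isHomogeneous_X_pow 0 2)).add (isHomogeneous_X_pow 1 2)).add (isHomogeneous_X_pow 2 2)

theorem eval_qs_sphere {u : E} (hu : u ∈ S2) : eval (fun i => u i) qs = 1 := by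
  have h1 : ‖u‖ ^ 2 = 1 := by
    rw [mem_sphere_zero_iff_norm] at hu
    rw [hu]
    norm_num
  rw [EuclideanSpace.real_norm_sq_eq, Fin.sum_univ_three] at h1
  unfold qs
  simpa using h1

theorem eval_lin (b : Fin 3 → ℝ) (u : E) : eval (fun i => u i) (lin b) = ∑ k : Fin 3, b k * u k := by
  unfold lin
  simp [map_sum]


theorem exists_min (p : Pol) (hprime : Prime qs) : ∃ (p' : Pol) (b : Fin 3 → ℝ),
    (∀ u ∈ S2, eval (fun i => u i) p' = eval (fun i => u i) p + ∑ k : Fin 3, b k * u k) ∧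
    (p' = 0 ∨ ∃ (i : ℕ) (D : Pol), i ≠ 1 ∧ D.IsHomogeneous i ∧ Low i (p' - D) ∧ ¬ qs ∣ D) := by
  classical
  have hex : ∃ n : ℕ, ∃ (p' : Pol) (b : Fin 3 → ℝ), p'.totalDegree = n ∧
      (∀ u ∈ S2, eval (fun i => u i) p' = eval (fun i => u i) p + ∑ k : Fin 3, b k * u k) :=
    ⟨p.totalDegree, p, fun _ => 0, rfl, fun u _ => by simp⟩
  obtain ⟨p', b, hdeg, hcond⟩ := Nat.find_spec hex
  have hmin : ∀ (p'' : Pol) (b'' : Fin 3 → ℝ),
      (∀ u ∈ S2, eval (fun i => u i) p'' = eval (fun i => u i) p + ∑ k : Fin 3, b'' k * u k) →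
      p'.totalDegree ≤ p''.totalDegree := by
    intro p'' b'' h
    rw [hdeg]
    exact Nat.find_min' hex ⟨p'', b'', rfl, h⟩
  refine ⟨p', b, hcond, ?_⟩
  by_cases hp0 : p' = 0
  · exact Or.inl hp0
  right
  refine ⟨p'.totalDegree, homogeneousComponent p'.totalDegree p', ?_,
    homogeneousComponent_isHomogeneous _ _, low_sub, ?_⟩
  · intro h1
    have h2 := low_totalDegree one_pos (low_one h1.le)
    have h3 := hmin (p' - lin (fun k => coeff (Finsupp.single k 1) p'))
      (fun k => b k - coeff (Finsupp.single k 1) p') (by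
        intro u hu
        rw [map_sub, hcond u hu, eval_lin, add_sub_assoc, ← Finset.sum_sub_distrib]
        congr 1
        refine Finset.sum_congr rfl fun k _ => ?_
        ring)
    omega
  · rintro ⟨K, hK⟩
    have hD0 := hom_top_ne hp0
    have hK0 : K ≠ 0 := by
      rintro rfl
      rw [mul_zero] at hK
      exact hD0 hK
    have hqs0 : qs ≠ 0 := hprime.ne_zero
    have hdD : (homogeneousComponent p'.totalDegree p').totalDegree = p'.totalDegree :=
      (homogeneousComponent_isHomogeneous _ _).totalDegree hD0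
    have hdq : qs.totalDegree = 2 := qs_hom.totalDegree hqs0
    have hsum : p'.totalDegree = 2 + K.totalDegree := by
      rw [← hdD, hK, totalDegree_mul_of_isDomain hqs0 hK0, hdq]
    have h1 : (p' - homogeneousComponent p'.totalDegree p').totalDegree < p'.totalDegree :=
      low_totalDegree (by omega) low_sub
    have h2 := totalDegree_add (p' - homogeneousComponent p'.totalDegree p') K
    have h3 := hmin (p' - homogeneousComponent p'.totalDegree p' + K) b (by
      intro u hu
      rw [map_add, map_sub, hcond u hu]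
      have h4 : eval (fun i => u i) (homogeneousComponent p'.totalDegree p') = eval (fun i => u i) K := by
        rw [hK, map_mul, eval_qs_sphere hu, one_mul]
      rw [h4]
      ring)
    have h5 : max (p' - homogeneousComponent p'.totalDegree p').totalDegree K.totalDegree < p'.totalDegree :=
      max_lt h1 (by omega)
    omega

end JC4


namespace JD

theorem congruent (F G : E → ℝ)
    (h : (∃ b : E, ∀ x : E, F x = G x + inner ℝ b x) ∨ (∃ b : E, ∀ x : E, F x = - G x + inner ℝ b x)) :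
    (∀ u ∈ S2, DifferentiableAt ℝ G u) →
    ∃ f : E ≃ᵢ E, f '' ((fun u => gradient G u) '' S2) = (fun u => gradient F u) '' S2 := by
  intro hG
  have hin : ∀ (b u : E), HasFDerivAt (fun x : E => inner ℝ b x)
      (InnerProductSpace.toDual ℝ E b : E →L[ℝ] ℝ) u := by
    intro b u
    exact (InnerProductSpace.toDual ℝ E b : E →L[ℝ] ℝ).hasFDerivAt
  have hGd : ∀ u ∈ S2, HasFDerivAt G (InnerProductSpace.toDual ℝ E (gradient G u) : E →L[ℝ] ℝ) u :=
    fun u hu => (hG u hu).hasGradientAt.hasFDerivAt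
  rcases h with ⟨b, hb⟩ | ⟨b, hb⟩
  · have hF : F = fun x => G x + inner ℝ b x := funext hb
    refine ⟨IsometryEquiv.addRight b, ?_⟩
    rw [Set.image_image]
    refine Set.image_congr fun u hu => ?_
    have h3 : HasGradientAt F (gradient G u + b) u := by
      rw [hasGradientAt_iff_hasFDerivAt, map_add, hF]
      exact (hGd u hu).add (hin b u)
    rw [h3.gradient]
    rfl
  · have hF : F = fun x => - G x + inner ℝ b x := funext hb
    refine ⟨(IsometryEquiv.neg E).trans (IsometryEquiv.addRight b), ?_⟩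
    rw [Set.image_image]
    refine Set.image_congr fun u hu => ?_
    have h3 : HasGradientAt F (-gradient G u + b) u := by
      rw [hasGradientAt_iff_hasFDerivAt, map_add, map_neg, hF]
      exact (hGd u hu).neg.add (hin b u)
    rw [h3.gradient]
    rfl

end JD

/-- The curvature function of a function given by a polynomial on the sphere. -/
theorem R_formula (F : E → ℝ) (hF : Hom1 F) (p : Pol)
    (hp : ∀ u ∈ S2, F u = eval (fun i => u i) p) (u : E) (hu : u ∈ S2) :
    2 * R F u = eval (fun i => u i) (B p p) :=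
  JA3.R_formula F p u hu fun i j =>
    JA2.hess_formula F p (fun x hx => JA1.grad_formula F hF p hp x hx) u hu i j

theorem B_polar (p q : Pol) : B (p + q) (p + q) - B (q - p) (q - p) = 4 * B p q :=
  JB1.B_polar p q

theorem B_sphere (p p' : Pol) (b : Fin 3 → ℝ) (c : ℝ)
    (h : ∀ u ∈ S2, eval (fun i => u i) p' = c * eval (fun i => u i) p + ∑ k : Fin 3, b k * u k) :
    ∀ u ∈ S2, eval (fun i => u i) (B p' p') = c ^ 2 * eval (fun i => u i) (B p p) :=
  JB3.B_sphere (fun F hF p hp u hu => R_formula F hF p hp u hu) JB1.B_lin p p' b c h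

theorem dvd_of_sphere (P T : Pol) (k : ℕ) (hT : T.IsHomogeneous k) (hP : Low k (P - T))
    (h0 : ∀ u ∈ S2, eval (fun i => u i) P = 0) : qs ∣ T :=
  JC2.dvd_of_sphere P T k hT hP h0

theorem prime_qs : Prime qs := JC3.prime_qs

theorem exists_min (p : Pol) : ∃ (p' : Pol) (b : Fin 3 → ℝ),
    (∀ u ∈ S2, eval (fun i => u i) p' = eval (fun i => u i) p + ∑ k : Fin 3, b k * u k) ∧
    (p' = 0 ∨ ∃ (i : ℕ) (D : Pol), i ≠ 1 ∧ D.IsHomogeneous i ∧ Low i (p' - D) ∧ ¬ qs ∣ D) :=
  JC4.exists_min p prime_qs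

theorem qs_ndvd_C (c : ℝ) (hc : c ≠ 0) : ¬ qs ∣ C c := by
  intro h
  have hu : IsUnit (C c : Pol) := (IsUnit.mk0 c hc).map C
  exact prime_qs.not_unit (isUnit_of_dvd_unit h hu)

/-- Main algebraic step. -/
theorem key (p q : Pol) (h : ∀ u ∈ S2, eval (fun i => u i) (B p p) = eval (fun i => u i) (B q q)) :
    (∃ b : Fin 3 → ℝ, ∀ u ∈ S2, eval (fun i => u i) p = eval (fun i => u i) q + ∑ k, b k * u k) ∨
    (∃ b : Fin 3 → ℝ, ∀ u ∈ S2, eval (fun i => u i) p = - eval (fun i => u i) q + ∑ k, b k * u k) := by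
  obtain ⟨d, b, hd, hd'⟩ := exists_min (p - q)
  obtain ⟨e, b', he, he'⟩ := exists_min (p + q)
  rcases hd' with rfl | ⟨i, D, hi, hD, hDl, hDq⟩
  · left
    refine ⟨fun k => - b k, fun u hu => ?_⟩
    have := hd u hu
    simp only [map_zero, map_sub] at this
    simp only [neg_mul, Finset.sum_neg_distrib]
    linarith
  rcases he' with rfl | ⟨j, H, hj, hH, hHl, hHq⟩
  · right
    refine ⟨fun k => - b' k, fun u hu => ?_⟩
    have := he u hu
    simp only [map_zero, map_add] at this
    simp only [neg_mul, Finset.sum_neg_distrib]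
    linarith
  exfalso
  have h1 : ∀ u ∈ S2, eval (fun i => u i) (B (d + e) (d + e)) =
      2 ^ 2 * eval (fun i => u i) (B p p) := by
    refine B_sphere p (d + e) (b + b') 2 ?_
    intro u hu
    rw [map_add, hd u hu, he u hu]
    simp only [map_sub, map_add, Pi.add_apply, add_mul, Finset.sum_add_distrib]
    ring
  have h2 : ∀ u ∈ S2, eval (fun i => u i) (B (e - d) (e - d)) =
      2 ^ 2 * eval (fun i => u i) (B q q) := by
    refine B_sphere q (e - d) (b' - b) 2 ?_
    intro u hu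
    rw [map_sub, hd u hu, he u hu]
    simp only [map_sub, map_add, Pi.sub_apply, sub_mul, Finset.sum_sub_distrib]
    ring
  have h3 : ∀ u ∈ S2, eval (fun i => u i) (B d e) = 0 := by
    intro u hu
    have h4 := congrArg (eval (fun i => u i)) (B_polar d e)
    rw [map_sub, h1 u hu, h2 u hu, h u hu, map_mul] at h4
    have h5 : eval (fun i => u i) (4 : Pol) = 4 := by
      simp
    rw [h5] at h4
    linarith
  have hcc : (((i : ℝ) - 1) * ((j : ℝ) - 1) * ((i : ℝ) + (j : ℝ) + 2)) ≠ 0 := by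
    have hi' : (i : ℝ) - 1 ≠ 0 := by
      intro h0
      apply hi
      have : (i : ℝ) = 1 := by linarith
      exact_mod_cast this
    have hj' : (j : ℝ) - 1 ≠ 0 := by
      intro h0
      apply hj
      have : (j : ℝ) = 1 := by linarith
      exact_mod_cast this
    have : (i : ℝ) + (j : ℝ) + 2 ≠ 0 := by positivity
    exact mul_ne_zero (mul_ne_zero hi' hj') this
  have h4 := B_top d e D H i j hD hH hDl hHl
  have h5 := dvd_of_sphere (B d e) _ (i + j)
    (by simpa using (isHomogeneous_C (Fin 3) (((i : ℝ) - 1) * ((j : ℝ) - 1) * ((i : ℝ) + (j : ℝ) + 2))).mul (hD.mul hH)) h4 h3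
  rcases prime_qs.dvd_or_dvd h5 with h6 | h6
  · exact qs_ndvd_C _ hcc h6
  · rcases prime_qs.dvd_or_dvd h6 with h7 | h7
    · exact hDq h7
    · exact hHq h7

theorem sphere_scale (x : E) (hx : x ≠ 0) : ‖x‖⁻¹ • x ∈ S2 := by
  have : ‖x‖ ≠ 0 := norm_ne_zero_iff.2 hx
  simp [norm_smul, this]

/-- Two hedgehogs with polynomial support functions and the same curvature function. -/
theorem pair (F G : E → ℝ) (hF : Hom1 F) (hG : Hom1 G) (pF : IsPoly F) (pG : IsPoly G)
    (h : ∀ u ∈ S2, R F u = R G u) :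
    (∃ b : E, ∀ x : E, F x = G x + inner ℝ b x) ∨ (∃ b : E, ∀ x : E, F x = - G x + inner ℝ b x) := by
  obtain ⟨p, hp⟩ := pF
  obtain ⟨q, hq⟩ := pG
  have h1 : ∀ u ∈ S2, eval (fun i => u i) (B p p) = eval (fun i => u i) (B q q) := by
    intro u hu
    rw [← R_formula F hF p hp u hu, ← R_formula G hG q hq u hu, h u hu]
  have hF0 : F 0 = 0 := by
    have := hF 0 2 (by norm_num)
    rw [smul_zero] at this
    linarith
  have hG0 : G 0 = 0 := by
    have := hG 0 2 (by norm_num)
    rw [smul_zero] at this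
    linarith
  have hb : ∀ (b : Fin 3 → ℝ) (x : E), inner ℝ (WithLp.toLp 2 b : E) x = ∑ k, b k * x k := by
    intro b x
    rw [PiLp.inner_apply]
    refine Finset.sum_congr rfl fun k _ => ?_
    simp [mul_comm]
  have hsc : ∀ (K : E → ℝ), Hom1 K → ∀ x : E, x ≠ 0 → K x = ‖x‖ * K (‖x‖⁻¹ • x) := by
    intro K hK x hx
    have hn : 0 < ‖x‖ := norm_pos_iff.2 hx
    rw [← hK _ _ hn, smul_smul, mul_inv_cancel₀ hn.ne', one_smul]
  rcases key p q h1 with ⟨b, hb'⟩ | ⟨b, hb'⟩
  · left
    refine ⟨WithLp.toLp 2 b, fun x => ?_⟩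
    by_cases hx : x = 0
    · subst hx
      rw [hF0, hG0]
      simp
    · have hn : 0 < ‖x‖ := norm_pos_iff.2 hx
      have hs := sphere_scale x hx
      rw [hsc F hF x hx, hsc G hG x hx, hp _ hs, hq _ hs, hb' _ hs, mul_add, hb,
        Finset.mul_sum]
      congr 1
      refine Finset.sum_congr rfl fun k _ => ?_
      simp only [PiLp.smul_apply, smul_eq_mul]
      field_simp
  · right
    refine ⟨WithLp.toLp 2 b, fun x => ?_⟩
    by_cases hx : x = 0
    · subst hx
      rw [hF0, hG0]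
      simp
    · have hn : 0 < ‖x‖ := norm_pos_iff.2 hx
      have hs := sphere_scale x hx
      rw [hsc F hF x hx, hsc G hG x hx, hp _ hs, hq _ hs, hb' _ hs, mul_add, hb,
        Finset.mul_sum, mul_neg]
      congr 1
      refine Finset.sum_congr rfl fun k _ => ?_
      simp only [PiLp.smul_apply, smul_eq_mul]
      field_simp

end Pool.Agent.Helper808.Hedge
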