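import Pool.Agent.Helper808.Hedge.DefsRev

set_option autoImplicit false

namespace Pool.Agent.Helper808.Hedge

/-- The point `(s, 0, c)`. -/
noncomputable def w (s c : ℝ) : E :=
  s • EuclideanSpace.single 0 (1 : ℝ) + c • EuclideanSpace.single 2 (1 : ℝ)

/-- Rotational symmetry about the third coordinate axis. -/
def Zon (f : E → ℝ) : Prop := ∀ x y : E, x 2 = y 2 → ‖x‖ = ‖y‖ → f x = f y

/-- Distance (with sign) from the axis. -/
noncomputable def rr (f : E → ℝ) (θ : ℝ) : ℝ :=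
  fderiv ℝ f (w (Real.sin θ) (Real.cos θ)) (EuclideanSpace.single 0 (1 : ℝ))

namespace JZA

theorem rot_identity (F : E → ℝ) (hS : Smooth2 F) (hZ : Zon F) (x : E) (hx : x ≠ 0) :
    x 0 * fderiv ℝ F x (EuclideanSpace.single 1 (1 : ℝ)) =
      x 1 * fderiv ℝ F x (EuclideanSpace.single 0 (1 : ℝ)) := by
  set g : ℝ → E := fun t =>
    (x 0 * Real.cos t - x 1 * Real.sin t) • EuclideanSpace.single 0 (1 : ℝ)
      + (x 0 * Real.sin t + x 1 * Real.cos t) • EuclideanSpace.single 1 (1 : ℝ)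
      + x 2 • EuclideanSpace.single 2 (1 : ℝ) with hg
  have g0 : ∀ t, (g t) 0 = x 0 * Real.cos t - x 1 * Real.sin t := by
    intro t; simp [hg]
  have g1 : ∀ t, (g t) 1 = x 0 * Real.sin t + x 1 * Real.cos t := by
    intro t; simp [hg]
  have g2 : ∀ t, (g t) 2 = x 2 := by
    intro t; simp [hg]
  have hgx : g 0 = x := by
    ext i
    fin_cases i
    · simpa using g0 0
    · simpa using g1 0
    · simpa using g2 0
  have hn : ∀ t, ‖g t‖ = ‖x‖ := by
    intro t
    rw [EuclideanSpace.norm_eq, EuclideanSpace.norm_eq]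
    congr 1
    rw [Fin.sum_univ_three, Fin.sum_univ_three, g0, g1, g2]
    simp only [Real.norm_eq_abs, sq_abs]
    have := Real.sin_sq_add_cos_sq t
    nlinarith [this]
  have hconst : ∀ t, F (g t) = F x := fun t => hZ _ _ (g2 t) (hn t)
  have hd1 : HasDerivAt (fun t : ℝ => x 0 * Real.cos t - x 1 * Real.sin t) (-(x 1)) 0 := by
    have := ((Real.hasDerivAt_cos 0).const_mul (x 0)).sub ((Real.hasDerivAt_sin 0).const_mul (x 1))
    refine HasDerivAt.congr_deriv this ?_
    simp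
  have hd2 : HasDerivAt (fun t : ℝ => x 0 * Real.sin t + x 1 * Real.cos t) (x 0) 0 := by
    have := ((Real.hasDerivAt_sin 0).const_mul (x 0)).add ((Real.hasDerivAt_cos 0).const_mul (x 1))
    refine HasDerivAt.congr_deriv this ?_
    simp
  have hd : HasDerivAt g ((-(x 1)) • EuclideanSpace.single 0 (1 : ℝ)
      + (x 0) • EuclideanSpace.single 1 (1 : ℝ)) 0 :=
    ((hd1.smul_const (EuclideanSpace.single 0 (1 : ℝ) : E)).add
      (hd2.smul_const (EuclideanSpace.single 1 (1 : ℝ) : E))).add_const _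
  have hopen : IsOpen {y : E | y ≠ 0} := isOpen_ne
  have hF : DifferentiableAt ℝ F (g 0) := by
    rw [hgx]
    exact (hS.contDiffAt (hopen.mem_nhds hx)).differentiableAt (by norm_num)
  have hcomp : HasDerivAt (F ∘ g) (fderiv ℝ F (g 0) ((-(x 1)) • EuclideanSpace.single 0 (1 : ℝ)
      + (x 0) • EuclideanSpace.single 1 (1 : ℝ))) 0 := hF.hasFDerivAt.comp_hasDerivAt 0 hd
  have hc : F ∘ g = fun _ => F x := funext hconst
  rw [hc, hgx] at hcomp
  have h0 := hcomp.unique (hasDerivAt_const (0 : ℝ) (F x))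
  rw [map_add, map_smul, map_smul, smul_eq_mul, smul_eq_mul] at h0
  linarith

end JZA

namespace JZA2

theorem rr_zero (F : E → ℝ) (hS : Smooth2 F)
    (hrot : ∀ x : E, x ≠ 0 → x 0 * fderiv ℝ F x (EuclideanSpace.single 1 (1 : ℝ)) =
      x 1 * fderiv ℝ F x (EuclideanSpace.single 0 (1 : ℝ))) : rr F 0 = 0 := by

  have hw : w (Real.sin 0) (Real.cos 0) = EuclideanSpace.single 2 (1 : ℝ) := by
    simp [w]
  unfold rr
  rw [hw]
  have hne : ∀ ε : ℝ, (EuclideanSpace.single 2 (1 : ℝ) + ε • EuclideanSpace.single 1 (1 : ℝ) : E) ≠ 0 := by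
    intro ε h
    have := congrArg (fun v : E => v 2) h
    simp at this
  have hne0 : (EuclideanSpace.single 2 (1 : ℝ) : E) ≠ 0 := by
    have := hne 0
    simpa using this
  have hc1 : ContDiffAt ℝ 2 F (EuclideanSpace.single 2 (1 : ℝ)) :=
    hS.contDiffAt (isOpen_ne.mem_nhds hne0)
  have hc2 : ContinuousAt (fderiv ℝ F) (EuclideanSpace.single 2 (1 : ℝ)) :=
    (hc1.fderiv_right (m := 1) (by norm_num)).continuousAt
  have hγ : Filter.Tendsto (fun ε : ℝ =>
      (EuclideanSpace.single 2 (1 : ℝ) + ε • EuclideanSpace.single 1 (1 : ℝ) : E))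
      (nhds 0) (nhds (EuclideanSpace.single 2 (1 : ℝ))) := by
    have h1 : Continuous (fun ε : ℝ =>
      (EuclideanSpace.single 2 (1 : ℝ) + ε • EuclideanSpace.single 1 (1 : ℝ) : E)) := by fun_prop
    have h2 := h1.tendsto 0
    simpa using h2
  have hg : Filter.Tendsto (fun ε : ℝ => fderiv ℝ F
      (EuclideanSpace.single 2 (1 : ℝ) + ε • EuclideanSpace.single 1 (1 : ℝ))
      (EuclideanSpace.single 0 (1 : ℝ))) (nhdsWithin 0 {0}ᶜ)
      (nhds (fderiv ℝ F (EuclideanSpace.single 2 (1 : ℝ)) (EuclideanSpace.single 0 (1 : ℝ)))) := by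
    have h0 := hc2.tendsto.comp hγ
    have h2 : Continuous (fun L : E →L[ℝ] ℝ => L (EuclideanSpace.single 0 (1 : ℝ))) := by fun_prop
    have h1 := (h2.tendsto _).comp h0
    exact h1.mono_left nhdsWithin_le_nhds
  have hz : Filter.Tendsto (fun ε : ℝ => fderiv ℝ F
      (EuclideanSpace.single 2 (1 : ℝ) + ε • EuclideanSpace.single 1 (1 : ℝ))
      (EuclideanSpace.single 0 (1 : ℝ))) (nhdsWithin 0 {0}ᶜ) (nhds 0) := by
    apply Filter.Tendsto.congr' _ tendsto_const_nhds
    filter_upwards [self_mem_nhdsWithin] with ε hε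
    have h1 := hrot _ (hne ε)
    have h2 : (EuclideanSpace.single 2 (1 : ℝ) + ε • EuclideanSpace.single 1 (1 : ℝ) : E) 0 = 0 := by
      simp
    have h3 : (EuclideanSpace.single 2 (1 : ℝ) + ε • EuclideanSpace.single 1 (1 : ℝ) : E) 1 = ε := by
      simp
    rw [h2, h3, zero_mul] at h1
    rcases mul_eq_zero.1 h1.symm with h4 | h4
    · exact absurd h4 hε
    · exact h4.symm
  exact tendsto_nhds_unique hg hz

end JZA2

namespace JZB1

theorem rr_hasDeriv (F : E → ℝ) (hS : Smooth2 F) (θ : ℝ) :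
    HasDerivAt (rr F) (Real.cos θ * M F (w (Real.sin θ) (Real.cos θ)) 0 0
      - Real.sin θ * M F (w (Real.sin θ) (Real.cos θ)) 2 0) θ := by
  have hw : w (Real.sin θ) (Real.cos θ) ≠ 0 := by
    intro h
    have h0 : (w (Real.sin θ) (Real.cos θ)) 0 = 0 := by rw [h]; rfl
    have h2 : (w (Real.sin θ) (Real.cos θ)) 2 = 0 := by rw [h]; rfl
    simp [w] at h0 h2
    have := Real.sin_sq_add_cos_sq θ
    rw [h0, h2] at this
    norm_num at this
  have hopen : IsOpen {x : E | x ≠ 0} := isOpen_ne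
  have hc : ContDiffAt ℝ 2 F (w (Real.sin θ) (Real.cos θ)) := hS.contDiffAt (hopen.mem_nhds hw)
  have hd : ContDiffAt ℝ 1 (fderiv ℝ F) (w (Real.sin θ) (Real.cos θ)) :=
    hc.fderiv_right (by norm_num)
  have hdiff : DifferentiableAt ℝ (fderiv ℝ F) (w (Real.sin θ) (Real.cos θ)) :=
    hd.differentiableAt (by norm_num)
  have hcurve : HasDerivAt (fun θ : ℝ => w (Real.sin θ) (Real.cos θ))
      (Real.cos θ • EuclideanSpace.single (0 : Fin 3) (1 : ℝ)
        + (-Real.sin θ) • EuclideanSpace.single (2 : Fin 3) (1 : ℝ)) θ := by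
    unfold w
    exact ((Real.hasDerivAt_sin θ).smul_const _).add ((Real.hasDerivAt_cos θ).smul_const _)
  have h1 := hdiff.hasFDerivAt.comp_hasDerivAt θ hcurve
  have h2 := h1.clm_apply (hasDerivAt_const θ (EuclideanSpace.single (0:Fin 3) (1:ℝ)))
  refine h2.congr_deriv ?_
  unfold M
  simp only [map_add, map_smul, map_zero, add_zero, ContinuousLinearMap.add_apply,
    ContinuousLinearMap.smul_apply, smul_eq_mul]
  ring

end JZB1

namespace JZB2

theorem rr_alg (F : E → ℝ) (hF : Hom1 F) (hS : Smooth2 F)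
    (hrot : ∀ x : E, x ≠ 0 → x 0 * fderiv ℝ F x (EuclideanSpace.single 1 (1 : ℝ)) =
      x 1 * fderiv ℝ F x (EuclideanSpace.single 0 (1 : ℝ))) (θ : ℝ) :
    rr F θ * (Real.cos θ * M F (w (Real.sin θ) (Real.cos θ)) 0 0
      - Real.sin θ * M F (w (Real.sin θ) (Real.cos θ)) 2 0) =
    Real.sin θ * Real.cos θ * R F (w (Real.sin θ) (Real.cos θ)) := by
  set s := Real.sin θ with hs
  set c := Real.cos θ with hc
  have hsc : s ^ 2 + c ^ 2 = 1 := Real.sin_sq_add_cos_sq θ
  set u : E := w s c with hu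
  have hu0 : u 0 = s := by simp [hu, w]
  have hu1 : u 1 = 0 := by simp [hu, w]
  have hu2 : u 2 = c := by simp [hu, w]
  have hune : u ≠ 0 := by
    intro h
    have h0 : s = 0 := by rw [← hu0, h]; simp
    have h2 : c = 0 := by rw [← hu2, h]; simp
    rw [h0, h2] at hsc
    norm_num at hsc
  have hopen : {x : E | x ≠ 0} ∈ nhds u := isOpen_ne.mem_nhds hune
  have hcd : ContDiffAt ℝ 2 F u := hS.contDiffAt hopen
  have hdd : DifferentiableAt ℝ (fderiv ℝ F) u :=
    (hcd.fderiv_right (m := 1) (by norm_num)).differentiableAt (by norm_num)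
  have hsymm : IsSymmSndFDerivAt ℝ F u :=
    hcd.isSymmSndFDerivAt (by simp)
  have hMsymm : ∀ i j, M F u i j = M F u j i := fun i j => hsymm _ _
  -- line derivative
  have hline : ∀ v : E, HasDerivAt (fun t : ℝ => fderiv ℝ F (u + t • v))
      (fderiv ℝ (fderiv ℝ F) u v) 0 := by
    intro v
    have h1 : HasDerivAt (fun t : ℝ => u + t • v) v 0 := by
      simpa using ((hasDerivAt_id (0 : ℝ)).smul_const v).const_add u
    have h2 : HasFDerivAt (fderiv ℝ F) (fderiv ℝ (fderiv ℝ F) u) (u + (0 : ℝ) • v) := by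
      simpa using hdd.hasFDerivAt
    exact h2.comp_hasDerivAt (0 : ℝ) h1
  have hlinej : ∀ v : E, ∀ y : E, HasDerivAt (fun t : ℝ => fderiv ℝ F (u + t • v) y)
      (fderiv ℝ (fderiv ℝ F) u v y) 0 := by
    intro v y
    exact (hline v).clm_apply (hasDerivAt_const (0 : ℝ) y) |>.congr_deriv (by simp)
  have hcoord : ∀ v : E, ∀ i : Fin 3, HasDerivAt (fun t : ℝ => (u + t • v) i) (v i) 0 := by
    intro v i
    have : (fun t : ℝ => (u + t • v) i) = fun t : ℝ => u i + t * v i := by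
      funext t; simp
    rw [this]
    simpa using ((hasDerivAt_id (0 : ℝ)).mul_const (v i)).const_add (u i)
  have hne : ∀ v : E, ∀ᶠ t : ℝ in nhds 0, u + t • v ≠ 0 := by
    intro v
    have hcont : ContinuousAt (fun t : ℝ => u + t • v) 0 := by fun_prop
    have : {x : E | x ≠ 0} ∈ nhds (u + (0 : ℝ) • v) := by simpa using hopen
    exact hcont this
  have hrotD : ∀ v : E, v 0 * fderiv ℝ F u (EuclideanSpace.single 1 (1 : ℝ))
      + s * fderiv ℝ (fderiv ℝ F) u v (EuclideanSpace.single 1 (1 : ℝ)) =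
      v 1 * fderiv ℝ F u (EuclideanSpace.single 0 (1 : ℝ)) := by
    intro v
    have h1 := (hcoord v 0).mul (hlinej v (EuclideanSpace.single 1 (1 : ℝ)))
    have h2 := (hcoord v 1).mul (hlinej v (EuclideanSpace.single 0 (1 : ℝ)))
    have h3 := h1.congr_of_eventuallyEq (f₁ := fun t : ℝ => (u + t • v) 1 *
      fderiv ℝ F (u + t • v) (EuclideanSpace.single 0 (1 : ℝ))) (by
        filter_upwards [hne v] with t ht
        exact (hrot _ ht).symm)
    have h4 := h3.unique h2
    simp only [zero_smul, add_zero, hu0, hu1, zero_mul] at h4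
    linarith
  -- homogeneity
  have hhom : ∀ x : E, ∀ k : ℝ, 0 < k → fderiv ℝ F (k • x) = fderiv ℝ F x := by
    intro x k hk
    have h1 : fderiv ℝ (fun x => F (k • x)) x = k • fderiv ℝ F (k • x) := fderiv_comp_smul k
    have h2 : (fun x => F (k • x)) = fun x => k • F x := by
      funext y; rw [hF y k hk]; rfl
    rw [h2] at h1
    have h3 : fderiv ℝ (fun x => k • F x) x = k • fderiv ℝ F x := by
      exact congrFun (fderiv_const_smul_field (𝕜 := ℝ) (f := F) k) x
    rw [h3] at h1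
    exact (smul_right_injective _ hk.ne' h1).symm
  have heul : fderiv ℝ (fderiv ℝ F) u u = 0 := by
    have h1 := hline u
    have h2 : HasDerivAt (fun t : ℝ => fderiv ℝ F (u + t • u)) 0 0 := by
      refine (hasDerivAt_const (0 : ℝ) (fderiv ℝ F u)).congr_of_eventuallyEq ?_
      filter_upwards [lt_mem_nhds (show (-1 : ℝ) < 0 by norm_num)] with t ht
      have : u + t • u = (1 + t) • u := by rw [add_smul, one_smul]
      rw [this]
      exact hhom u (1 + t) (by linarith)
    exact h1.unique h2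
  have heulj : ∀ j, s * M F u 0 j + c * M F u 2 j = 0 := by
    intro j
    have h1 : fderiv ℝ (fderiv ℝ F) u u (EuclideanSpace.single j (1 : ℝ)) = 0 := by
      rw [heul]; rfl
    have h2 : fderiv ℝ (fderiv ℝ F) u u =
        s • fderiv ℝ (fderiv ℝ F) u (EuclideanSpace.single 0 (1 : ℝ)) +
        c • fderiv ℝ (fderiv ℝ F) u (EuclideanSpace.single 2 (1 : ℝ)) := by
      conv_lhs => rw [show fderiv ℝ (fderiv ℝ F) u u = fderiv ℝ (fderiv ℝ F) u
        (s • EuclideanSpace.single 0 (1 : ℝ) + c • EuclideanSpace.single 2 (1 : ℝ)) from rfl]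
      rw [map_add, map_smul, map_smul]
    rw [h2] at h1
    simpa [M] using h1
  have hr : rr F θ = fderiv ℝ F u (EuclideanSpace.single 0 (1 : ℝ)) := rfl
  have e0 := hrotD (EuclideanSpace.single 0 (1 : ℝ))
  have e1 := hrotD (EuclideanSpace.single 1 (1 : ℝ))
  have e2 := hrotD (EuclideanSpace.single 2 (1 : ℝ))
  have e3 := hrot u hune
  rw [hu0, hu1, zero_mul] at e3
  have f0 : fderiv ℝ F u (EuclideanSpace.single 1 (1 : ℝ)) + s * M F u 0 1 = 0 := by
    simpa [M] using e0
  have f1 : s * M F u 1 1 = rr F θ := by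
    rw [hr]; simpa [M] using e1
  have f2 : s * M F u 2 1 = 0 := by
    simpa [M] using e2
  by_cases hs0 : s = 0
  · have : rr F θ = 0 := by rw [← f1, hs0, zero_mul]
    rw [this, hs0]; ring
  · have g1 : fderiv ℝ F u (EuclideanSpace.single 1 (1 : ℝ)) = 0 := by
      rcases mul_eq_zero.mp e3 with h | h
      · exact absurd h hs0
      · exact h
    have g01 : M F u 0 1 = 0 := by
      rw [g1, zero_add] at f0
      rcases mul_eq_zero.mp f0 with h | h
      · exact absurd h hs0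
      · exact h
    have g21 : M F u 2 1 = 0 := by
      rcases mul_eq_zero.mp f2 with h | h
      · exact absurd h hs0
      · exact h
    have g10 : M F u 1 0 = 0 := by rw [hMsymm, g01]
    have g12 : M F u 1 2 = 0 := by rw [hMsymm, g21]
    have k0 := heulj 0
    have k2 := heulj 2
    have hsy := hMsymm 0 2
    have key : M F u 0 0 * M F u 2 2 - M F u 0 2 * M F u 2 0 = 0 := by
      have : s * (M F u 0 0 * M F u 2 2 - M F u 0 2 * M F u 2 0) = 0 := by
        linear_combination (M F u 2 2) * k0 - (M F u 2 0) * k2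
      rcases mul_eq_zero.mp this with h | h
      · exact absurd h hs0
      · exact h
    unfold R
    rw [g01, g10, g12, g21, key, ← f1]
    linear_combination (-(s * M F u 1 1)) * k2 + s * s * M F u 1 1 * hsy

end JZB2

namespace JZC

theorem w_norm (s c : ℝ) (h : s ^ 2 + c ^ 2 = 1) : ‖w s c‖ = 1 := by
  have h1 : ‖w s c‖ ^ 2 = 1 := by
    rw [EuclideanSpace.norm_sq_eq, Fin.sum_univ_three]
    simp [w]
    exact h
  have h2 : 0 ≤ ‖w s c‖ := norm_nonneg _
  nlinarith

theorem rr_eq (H : ℝ → E → ℝ)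
    (hcont : ∀ θ : ℝ, ContinuousOn (fun t => rr (H t) θ) (Set.Icc (0 : ℝ) 1))
    (hr0 : ∀ t ∈ Set.Icc (0 : ℝ) 1, rr (H t) 0 = 0)
    (hr : ∀ t ∈ Set.Icc (0 : ℝ) 1, ∀ θ : ℝ, HasDerivAt (fun θ => rr (H t) θ ^ 2)
      (2 * (Real.sin θ * Real.cos θ * R (H t) (w (Real.sin θ) (Real.cos θ)))) θ)
    (hR : ∀ t ∈ Set.Icc (0 : ℝ) 1, ∀ u ∈ S2, R (H t) u = R (H 0) u) :
    ∀ t ∈ Set.Icc (0 : ℝ) 1, ∀ θ : ℝ, rr (H t) θ = rr (H 0) θ := by
  have hw : ∀ θ : ℝ, ‖w (Real.sin θ) (Real.cos θ)‖ = 1 := fun θ =>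
    w_norm _ _ (Real.sin_sq_add_cos_sq θ)
  have hwS : ∀ θ : ℝ, w (Real.sin θ) (Real.cos θ) ∈ S2 := fun θ => by
    rw [mem_sphere_iff_norm, sub_zero]
    exact hw θ
  have hw0 : ∀ θ : ℝ, w (Real.sin θ) (Real.cos θ) ≠ 0 := fun θ h => by
    have := hw θ
    rw [h, norm_zero] at this
    exact zero_ne_one this
  have h0 : (0 : ℝ) ∈ Set.Icc (0 : ℝ) 1 := ⟨le_refl _, zero_le_one⟩
  have hsq : ∀ t ∈ Set.Icc (0 : ℝ) 1, ∀ θ : ℝ, rr (H t) θ ^ 2 = rr (H 0) θ ^ 2 := by
    intro t ht θ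
    have hder : ∀ x : ℝ, HasDerivAt (fun θ => rr (H t) θ ^ 2 - rr (H 0) θ ^ 2) 0 x := by
      intro x
      have h := (hr t ht x).sub (hr 0 h0 x)
      rw [hR t ht _ (hwS x), sub_self] at h
      exact h
    have hc := is_const_of_deriv_eq_zero (f := fun θ => rr (H t) θ ^ 2 - rr (H 0) θ ^ 2)
      (fun x => (hder x).differentiableAt) (fun x => (hder x).deriv) θ 0
    simp only [hr0 t ht, hr0 0 h0, sub_self] at hc
    exact sub_eq_zero.1 hc
  intro t ht θ
  by_cases hz : rr (H 0) θ = 0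
  · have h := hsq t ht θ
    rw [hz] at h
    rw [hz]
    exact pow_eq_zero_iff (two_ne_zero) |>.1 (by rw [h]; norm_num)
  · have hcon : ContinuousOn (fun t => rr (H t) θ) (Set.Icc (0 : ℝ) 1) := hcont θ
    have hor := (isPreconnected_Icc (a := (0:ℝ)) (b := 1)).eq_or_eq_neg_of_sq_eq
      (f := fun t => rr (H t) θ) (g := fun _ => rr (H 0) θ) hcon continuousOn_const
      (fun t ht => hsq t ht θ) (fun _ => hz)
    rcases hor with h | h
    · exact h ht
    · exfalso
      have h2 : rr (H 0) θ = -rr (H 0) θ := h h0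
      exact hz (by linarith)

end JZC

namespace JZD

theorem w0' (s c : ℝ) : (w s c) 0 = s := by simp [w]
theorem w1' (s c : ℝ) : (w s c) 1 = 0 := by simp [w]
theorem w2' (s c : ℝ) : (w s c) 2 = c := by simp [w]

theorem w_smul (r s c : ℝ) : r • w s c = w (r * s) (r * c) := by
  simp [w, smul_add, smul_smul]

theorem w_ne (s c : ℝ) (h : s ≠ 0 ∨ c ≠ 0) : w s c ≠ 0 := by
  intro h0
  rcases h with h | h
  · apply h
    have := congrArg (fun x : E => x 0) h0
    simpa [w] using this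
  · apply h
    have := congrArg (fun x : E => x 2) h0
    simpa [w] using this

theorem diffAt (D : E → ℝ) (hS : Smooth2 D) (x : E) (hx : x ≠ 0) : DifferentiableAt ℝ D x := by
  have ho : IsOpen {x : E | x ≠ 0} := isOpen_ne
  have := (hS.contDiffAt (ho.mem_nhds hx))
  exact this.differentiableAt (by norm_num)

theorem fd_smul (D : E → ℝ) (hD : Hom1 D) (hS : Smooth2 D) (x : E) (hx : x ≠ 0) (r : ℝ) (hr : 0 < r)
    (v : E) : fderiv ℝ D (r • x) v = fderiv ℝ D x v := by
  have h1 : HasFDerivAt D (fderiv ℝ D x) x := (diffAt D hS x hx).hasFDerivAt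
  have hrx : r • x ≠ 0 := smul_ne_zero hr.ne' hx
  have h2 : HasFDerivAt D (fderiv ℝ D (r • x)) (r • x) := (diffAt D hS _ hrx).hasFDerivAt
  have h3 : HasFDerivAt (fun y : E => r • y) (r • ContinuousLinearMap.id ℝ E) x :=
    (hasFDerivAt_id x).const_smul r
  have h4 : HasFDerivAt (fun y : E => D (r • y)) ((fderiv ℝ D (r • x)).comp (r • ContinuousLinearMap.id ℝ E)) x :=
    HasFDerivAt.comp x h2 h3
  have h5 : HasFDerivAt (fun y : E => r * D y) (r • fderiv ℝ D x) x := h1.const_mul r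
  have h6 : (fun y : E => D (r • y)) = fun y : E => r * D y := by
    funext y; exact hD y r hr
  rw [h6] at h4
  have h7 := h4.unique h5
  have h8 := congrArg (fun L : E →L[ℝ] ℝ => L v) h7
  simp at h8
  rcases h8 with h8 | h8
  · exact h8
  · exact absurd h8 hr.ne'

theorem fd_zero (D : E → ℝ) (hD : Hom1 D) (hS : Smooth2 D)
    (h0 : ∀ θ ∈ Set.Icc (0 : ℝ) Real.pi, rr D θ = 0) (s c : ℝ) (hs : 0 ≤ s) (h : s ≠ 0 ∨ c ≠ 0) :
    fderiv ℝ D (w s c) (EuclideanSpace.single 0 (1 : ℝ)) = 0 := by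
  have hpos : 0 < s ^ 2 + c ^ 2 := by
    rcases h with h | h <;> positivity
  set r := Real.sqrt (s ^ 2 + c ^ 2) with hr
  have hr0 : 0 < r := Real.sqrt_pos.mpr hpos
  have hr2 : r ^ 2 = s ^ 2 + c ^ 2 := Real.sq_sqrt hpos.le
  have hcle : |c| ≤ r := by
    apply Real.abs_le_sqrt
    nlinarith [sq_nonneg s]
  have h1 : -1 ≤ c / r := by
    rw [le_div_iff₀ hr0]; have := (abs_le.mp hcle).1; linarith
  have h2 : c / r ≤ 1 := by
    rw [div_le_iff₀ hr0]; have := (abs_le.mp hcle).2; linarith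
  have hcos : Real.cos (Real.arccos (c / r)) = c / r := Real.cos_arccos h1 h2
  have hsin : Real.sin (Real.arccos (c / r)) = s / r := by
    rw [Real.sin_arccos]
    have : 1 - (c / r) ^ 2 = (s / r) ^ 2 := by
      field_simp; linarith
    rw [this]
    exact Real.sqrt_sq (by positivity)
  have hw : w s c = r • w (Real.sin (Real.arccos (c / r))) (Real.cos (Real.arccos (c / r))) := by
    rw [w_smul, hcos, hsin]
    congr 1 <;> field_simp
  rw [hw, fd_smul D hD hS _ _ r hr0]
  · exact h0 _ ⟨Real.arccos_nonneg _, Real.arccos_le_pi _⟩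
  · rw [hcos, hsin]
    apply w_ne
    rcases h with h | h
    · left; positivity
    · right; exact div_ne_zero h hr0.ne'

theorem const_s (D : E → ℝ) (hD : Hom1 D) (hS : Smooth2 D)
    (h0 : ∀ θ ∈ Set.Icc (0 : ℝ) Real.pi, rr D θ = 0) (s c : ℝ) (hs : 0 ≤ s) (hc : c ≠ 0) :
    D (w s c) = D (w 0 c) := by
  have hd : ∀ t : ℝ, 0 ≤ t → HasDerivAt (fun t => D (w t c)) 0 t := by
    intro t ht
    have h1 : HasFDerivAt D (fderiv ℝ D (w t c)) (w t c) :=
      (diffAt D hS _ (w_ne _ _ (Or.inr hc))).hasFDerivAt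
    have h2 : HasDerivAt (fun t : ℝ => w t c) (EuclideanSpace.single 0 (1 : ℝ)) t := by
      have h3 : HasDerivAt (fun t : ℝ => t • (EuclideanSpace.single 0 (1 : ℝ) : E))
          ((1 : ℝ) • (EuclideanSpace.single 0 (1 : ℝ) : E)) t := (hasDerivAt_id t).smul_const _
      have h4 := h3.add_const (c • (EuclideanSpace.single 2 (1 : ℝ) : E))
      simpa [w] using h4
    have h5 := h1.comp_hasDerivAt t h2
    rw [fd_zero D hD hS h0 t c ht (Or.inr hc)] at h5
    exact h5
  have := constant_of_has_deriv_right_zero (f := fun t => D (w t c)) (a := 0) (b := s)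
    (fun t ht => (hd t ht.1).continuousAt.continuousWithinAt)
    (fun t ht => (hd t ht.1).hasDerivWithinAt) s ⟨hs, le_refl s⟩
  exact this

theorem zonal_linear (D : E → ℝ) (hD : Hom1 D) (hS : Smooth2 D) (hZ : Zon D)
    (h0 : ∀ θ ∈ Set.Icc (0 : ℝ) Real.pi, rr D θ = 0) : ∃ α : ℝ, ∀ x : E, D x = α * x 2 := by
  have hD0 : D 0 = 0 := by
    have := hD 0 2 (by norm_num)
    simp at this
    linarith
  have hpos : ∀ c : ℝ, 0 < c → D (w 0 c) = c * D (w 0 1) := by
    intro c hc
    have := hD (w 0 1) c hc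
    rw [w_smul] at this
    simpa using this
  have hneg : ∀ c : ℝ, c < 0 → D (w 0 c) = -c * D (w 0 (-1)) := by
    intro c hc
    have := hD (w 0 (-1)) (-c) (by linarith)
    rw [w_smul] at this
    simpa using this
  set h : ℝ → ℝ := fun c => D (w 1 c) with hh
  have hdiff : DifferentiableAt ℝ h 0 := by
    have h1 : DifferentiableAt ℝ D (w 1 0) := diffAt D hS _ (w_ne _ _ (Or.inl one_ne_zero))
    have h2 : DifferentiableAt ℝ (fun c : ℝ => w 1 c) 0 := by
      unfold w
      exact (differentiableAt_const _).add (differentiableAt_id.smul_const _)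
    exact DifferentiableAt.comp (0 : ℝ) h1 h2
  have hp : ∀ c : ℝ, 0 < c → h c = c * D (w 0 1) := by
    intro c hc
    rw [hh]; simp only
    rw [const_s D hD hS h0 1 c zero_le_one hc.ne', hpos c hc]
  have hn : ∀ c : ℝ, c < 0 → h c = -c * D (w 0 (-1)) := by
    intro c hc
    rw [hh]; simp only
    rw [const_s D hD hS h0 1 c zero_le_one hc.ne, hneg c hc]
  have hzero : h 0 = 0 := by
    have hc : Filter.Tendsto h (nhdsWithin 0 (Set.Ioi 0)) (nhds (h 0)) :=
      hdiff.continuousAt.continuousWithinAt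
    have hc2 : Filter.Tendsto (fun c : ℝ => c * D (w 0 1)) (nhdsWithin 0 (Set.Ioi 0)) (nhds (0 * D (w 0 1))) := by
      exact ((continuous_id.mul continuous_const).tendsto 0).mono_left nhdsWithin_le_nhds
    have hc3 : Filter.Tendsto h (nhdsWithin 0 (Set.Ioi 0)) (nhds (0 * D (w 0 1))) := by
      apply hc2.congr'
      filter_upwards [self_mem_nhdsWithin] with c hc
      exact (hp c hc).symm
    have := tendsto_nhds_unique hc hc3
    simpa using this
  obtain ⟨h', hder⟩ : ∃ h', HasDerivAt h h' 0 := ⟨_, hdiff.hasDerivAt⟩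
  have ha : h' = D (w 0 1) := by
    have e1 : HasDerivWithinAt h h' (Set.Ici 0) 0 := hder.hasDerivWithinAt
    have e2 : HasDerivWithinAt (fun c : ℝ => c * D (w 0 1)) (D (w 0 1)) (Set.Ici 0) 0 := by
      have := (hasDerivAt_id (0 : ℝ)).mul_const (D (w 0 1))
      simpa using this.hasDerivWithinAt
    have e3 : HasDerivWithinAt h (D (w 0 1)) (Set.Ici 0) 0 := by
      apply e2.congr
      · intro c hc
        rcases eq_or_lt_of_le (show (0 : ℝ) ≤ c from hc) with h1 | h1
        · rw [← h1]; simpa using hzero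
        · exact hp c h1
      · simpa using hzero
    exact (uniqueDiffOn_Ici (0 : ℝ) 0 (Set.mem_Ici.mpr le_rfl)).eq_deriv _ e1 e3
  have hb : h' = -D (w 0 (-1)) := by
    have e1 : HasDerivWithinAt h h' (Set.Iic 0) 0 := hder.hasDerivWithinAt
    have e2 : HasDerivWithinAt (fun c : ℝ => c * (-D (w 0 (-1)))) (-D (w 0 (-1))) (Set.Iic 0) 0 := by
      have := (hasDerivAt_id (0 : ℝ)).mul_const (-D (w 0 (-1)))
      simpa using this.hasDerivWithinAt
    have e3 : HasDerivWithinAt h (-D (w 0 (-1))) (Set.Iic 0) 0 := by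
      apply e2.congr
      · intro c hc
        rcases eq_or_lt_of_le (show c ≤ (0 : ℝ) from hc) with h1 | h1
        · rw [h1]; simpa using hzero
        · rw [hn c h1]; ring
      · simpa using hzero
    exact (uniqueDiffOn_Iic (0 : ℝ) 0 (Set.mem_Iic.mpr le_rfl)).eq_deriv _ e1 e3
  refine ⟨D (w 0 1), ?_⟩
  have key : ∀ s c : ℝ, 0 ≤ s → D (w s c) = D (w 0 1) * c := by
    intro s c hs
    rcases lt_trichotomy c 0 with hc | hc | hc
    · rw [const_s D hD hS h0 s c hs hc.ne, hneg c hc]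
      have : D (w 0 1) = -D (w 0 (-1)) := by rw [← ha, hb]
      rw [this]; ring
    · subst hc
      rcases eq_or_lt_of_le hs with h1 | h1
      · rw [← h1]
        have : w 0 0 = 0 := by simp [w]
        rw [this, hD0]; ring
      · have := hD (w 1 0) s h1
        rw [w_smul] at this
        simp only [mul_one, mul_zero] at this
        rw [this]
        have h2 : D (w 1 0) = 0 := hzero
        rw [h2]; ring
    · rw [const_s D hD hS h0 s c hs hc.ne', hpos c hc]; ring
  intro x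
  have hx : D x = D (w (Real.sqrt (x 0 ^ 2 + x 1 ^ 2)) (x 2)) := by
    apply hZ
    · rw [w2']
    · rw [EuclideanSpace.norm_eq, EuclideanSpace.norm_eq]
      congr 1
      simp only [Fin.sum_univ_three, Real.norm_eq_abs, sq_abs, w0', w1', w2']
      rw [Real.sq_sqrt (by positivity)]
      ring
  rw [hx, key _ _ (Real.sqrt_nonneg _)]

end JZD

namespace JZE

theorem R_eq_trace (f : E → ℝ) (u : E) :
    R f u = ((Matrix.trace (Matrix.of (M f u))) ^ 2
      - Matrix.trace (Matrix.of (M f u) * Matrix.of (M f u))) / 2 := by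
  unfold R
  simp only [Matrix.trace, Fin.sum_univ_three, Matrix.mul_apply, Matrix.diag_apply,
    Matrix.of_apply]
  ring

theorem M_comp (O : E ≃ₗᵢ[ℝ] E) (F : E → ℝ) (hS : Smooth2 F) (u : E) (hu : u ≠ 0) (i j : Fin 3) :
    M (fun x => F (O x)) u i j
      = fderiv ℝ (fderiv ℝ F) (O u) (O (EuclideanSpace.single i (1 : ℝ)))
          (O (EuclideanSpace.single j (1 : ℝ))) := by
  unfold M
  set O' : E →L[ℝ] E := (O.toContinuousLinearEquiv : E →L[ℝ] E) with hO'
  have hOx : ∀ x, O' x = O x := fun x => rfl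
  have h1 : fderiv ℝ (fun x => F (O x)) = fun x => (fderiv ℝ F (O x)).comp O' := by
    funext x
    have := ContinuousLinearEquiv.comp_right_fderiv (𝕜 := ℝ) (f := F)
      (O.toContinuousLinearEquiv) (x := x)
    exact this
  have hOu : O u ≠ 0 := by
    intro h
    exact hu ((LinearIsometryEquiv.map_eq_zero_iff O).1 h)
  have hcd : ContDiffAt ℝ 2 F (O u) := by
    have hopen : IsOpen {x : E | x ≠ 0} := isOpen_ne
    exact hS.contDiffAt (hopen.mem_nhds hOu)
  have hd : DifferentiableAt ℝ (fderiv ℝ F) (O u) := by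
    have h3 : ContDiffAt ℝ 1 (fderiv ℝ F) (O u) := hcd.fderiv_right (by norm_num)
    exact h3.differentiableAt (by norm_num)
  have h4 : HasFDerivAt (fun x => fderiv ℝ F (O x))
      ((fderiv ℝ (fderiv ℝ F) (O u)).comp O') u := by
    have h5 : HasFDerivAt (fun x => O x) O' u := O'.hasFDerivAt
    exact HasFDerivAt.comp u hd.hasFDerivAt h5
  have h6 : HasFDerivAt (fun x => (fderiv ℝ F (O x)).comp O')
      ((((ContinuousLinearMap.compL ℝ E E ℝ).flip O')).comp
        ((fderiv ℝ (fderiv ℝ F) (O u)).comp O')) u :=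
    ((ContinuousLinearMap.compL ℝ E E ℝ).flip O').hasFDerivAt.comp u h4
  rw [h1, h6.fderiv]
  simp [hOx]

theorem single_expand (v : E) :
    v = ∑ k : Fin 3, (v k) • EuclideanSpace.single k (1 : ℝ) := by
  ext i
  simp [Fin.sum_univ_three]
  fin_cases i <;> simp

theorem R_comp (O : E ≃ₗᵢ[ℝ] E) (F : E → ℝ) (hS : Smooth2 F) (u : E) (hu : u ≠ 0) :
    R (fun x => F (O x)) u = R F (O u) := by
  set Q : Matrix (Fin 3) (Fin 3) ℝ :=
    Matrix.of (fun k i => (O (EuclideanSpace.single i (1 : ℝ))) k) with hQ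
  have hQQ : Q.transpose * Q = 1 := by
    ext i j
    have h1 : inner ℝ (O (EuclideanSpace.single i (1 : ℝ))) (O (EuclideanSpace.single j (1 : ℝ)))
        = inner ℝ (EuclideanSpace.single i (1 : ℝ) : E) (EuclideanSpace.single j (1 : ℝ)) :=
      LinearIsometryEquiv.inner_map_map O _ _
    have h2 : inner ℝ (O (EuclideanSpace.single i (1 : ℝ))) (O (EuclideanSpace.single j (1 : ℝ)))
        = (Q.transpose * Q) i j := by
      rw [PiLp.inner_apply, Matrix.mul_apply]
      refine Finset.sum_congr rfl (fun k _ => ?_)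
      simp [hQ, mul_comm]
    rw [← h2, h1]
    rw [EuclideanSpace.inner_single_left]
    simp [Matrix.one_apply]
  have hQQ' : Q * Q.transpose = 1 := mul_eq_one_comm.1 hQQ
  have hM : Matrix.of (M (fun x => F (O x)) u)
      = Q.transpose * Matrix.of (M F (O u)) * Q := by
    ext i j
    rw [Matrix.of_apply, M_comp O F hS u hu i j]
    rw [single_expand (O (EuclideanSpace.single i (1 : ℝ))),
      single_expand (O (EuclideanSpace.single j (1 : ℝ)))]
    simp only [Fin.sum_univ_three, map_add, map_smul, ContinuousLinearMap.add_apply,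
      ContinuousLinearMap.smul_apply, Matrix.mul_apply, Matrix.transpose_apply, Matrix.of_apply,
      hQ, smul_eq_mul]
    unfold M
    ring
  rw [R_eq_trace, R_eq_trace, hM]
  have t1 : Matrix.trace (Q.transpose * Matrix.of (M F (O u)) * Q)
      = Matrix.trace (Matrix.of (M F (O u))) := by
    rw [Matrix.trace_mul_comm, ← Matrix.mul_assoc, hQQ', Matrix.one_mul]
  have t2 : Matrix.trace (Q.transpose * Matrix.of (M F (O u)) * Q
        * (Q.transpose * Matrix.of (M F (O u)) * Q))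
      = Matrix.trace (Matrix.of (M F (O u)) * Matrix.of (M F (O u))) := by
    have e : Q.transpose * Matrix.of (M F (O u)) * Q
        * (Q.transpose * Matrix.of (M F (O u)) * Q)
        = Q.transpose * (Matrix.of (M F (O u)) * Matrix.of (M F (O u))) * Q := by
      calc _ = Q.transpose * Matrix.of (M F (O u)) * (Q * Q.transpose)
          * Matrix.of (M F (O u)) * Q := by simp only [Matrix.mul_assoc]
        _ = _ := by rw [hQQ']; simp only [Matrix.mul_assoc, Matrix.mul_one, Matrix.one_mul]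
    rw [e, Matrix.trace_mul_comm, ← Matrix.mul_assoc, hQQ', Matrix.one_mul]
  rw [t1, t2]

end JZE

namespace JZF

theorem ta_norm (p q : E) (hp : ‖p‖ = 1) (hq : ‖q‖ = 1) (hpq : inner ℝ p q = (0 : ℝ)) (α β : ℝ)
    (h : α ^ 2 + β ^ 2 = 1) : ‖α • p + β • q‖ = 1 := by
  have h1 : ‖α • p + β • q‖ ^ 2 = 1 := by
    rw [norm_add_sq_real, norm_smul, norm_smul, hp, hq, inner_smul_left, inner_smul_right, hpq]
    simp only [Real.norm_eq_abs, mul_one, sq_abs, mul_zero, add_zero]
    exact h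
  exact (pow_eq_one_iff_of_nonneg (norm_nonneg _) two_ne_zero).1 h1

theorem ta_perp (a b : E) : ∃ n : E, ‖n‖ = 1 ∧ inner ℝ a n = (0 : ℝ) ∧ inner ℝ b n = (0 : ℝ) := by
  have hne : (Submodule.span ℝ ({a, b} : Set E))ᗮ ≠ ⊥ := by
    intro h
    have h1 := Submodule.finrank_add_finrank_orthogonal (Submodule.span ℝ ({a, b} : Set E))
    rw [h, finrank_bot, finrank_euclideanSpace, Fintype.card_fin] at h1
    have h2 : Module.finrank ℝ (Submodule.span ℝ ({a, b} : Set E)) ≤ 2 := by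
      classical
      have h3 := finrank_span_finset_le_card (R := ℝ) ({a, b} : Finset E)
      have h4 : ({a, b} : Finset E).card ≤ 2 := Finset.card_le_two
      have h5 : ((({a, b} : Finset E) : Set E)) = ({a, b} : Set E) := by simp
      unfold Set.finrank at h3
      rw [h5] at h3
      omega
    omega
  obtain ⟨n, hn, hn0⟩ := Submodule.exists_mem_ne_zero_of_ne_bot hne
  have hnn : ‖n‖ ≠ 0 := norm_ne_zero_iff.2 hn0
  rw [Submodule.mem_orthogonal] at hn
  have h1 := hn a (Submodule.subset_span (by simp))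
  have h2 := hn b (Submodule.subset_span (by simp))
  refine ⟨(‖n‖⁻¹) • n, ?_, ?_, ?_⟩
  · rw [norm_smul, norm_inv, norm_norm]
    exact inv_mul_cancel₀ hnn
  · rw [inner_smul_right, h1, mul_zero]
  · rw [inner_smul_right, h2, mul_zero]

theorem two_axes (f : E → ℝ) (hf : ContinuousOn f S2) (a b : E) (ha : ‖a‖ = 1) (hb : ‖b‖ = 1)
    (hab : a ≠ b) (hab' : a ≠ -b)
    (h1 : ∀ x ∈ S2, ∀ y ∈ S2, inner ℝ a x = inner ℝ a y → f x = f y)
    (h2 : ∀ x ∈ S2, ∀ y ∈ S2, inner ℝ b x = inner ℝ b y → f x = f y) :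
    ∀ x ∈ S2, f x = f a := by
  intro u hu
  have hmem : ∀ x : E, x ∈ S2 ↔ ‖x‖ = 1 := fun x => mem_sphere_zero_iff_norm
  have hcK : IsCompact (S2 ∩ f ⁻¹' {f u}) := by
    have h3 : IsCompact S2 := isCompact_sphere (0 : E) 1
    exact h3.of_isClosed_subset
      (hf.preimage_isClosed_of_isClosed h3.isClosed isClosed_singleton) Set.inter_subset_left
  have hne : (S2 ∩ f ⁻¹' {f u}).Nonempty := ⟨u, hu, rfl⟩
  obtain ⟨v, ⟨hv1, hv2⟩, hvmax⟩ := hcK.exists_isMaxOn hne
    (f := fun v : E => (inner ℝ a v : ℝ)) (by fun_prop)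
  have hv2' : f v = f u := hv2
  have hvn : ‖v‖ = 1 := (hmem v).1 hv1
  set s : ℝ := inner ℝ a v with hs
  have hs1 : |s| ≤ 1 := by
    have := abs_real_inner_le_norm a v
    rw [ha, hvn, mul_one] at this
    exact this
  rcases eq_or_lt_of_le (abs_le.1 hs1).2 with hseq | hslt
  · have hav : a = v := (inner_eq_one_iff_of_norm_eq_one ha hvn).1 hseq
    rw [← hv2', ← hav]
  · exfalso
    set k : ℝ := inner ℝ a b with hk
    have hk1 : |k| ≤ 1 := by
      have := abs_real_inner_le_norm a b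
      rw [ha, hb, mul_one] at this
      exact this
    have hkne1 : k ≠ 1 := fun h => hab ((inner_eq_one_iff_of_norm_eq_one ha hb).1 h)
    have hkne2 : k ≠ -1 := by
      intro h
      apply hab'
      have hnb : ‖-b‖ = 1 := by rw [norm_neg, hb]
      apply (inner_eq_one_iff_of_norm_eq_one (𝕜 := ℝ) ha hnb).1
      rw [inner_neg_right, ← hk, h, neg_neg]
    have hk2 : k ^ 2 < 1 := by
      have ha1 := abs_le.1 hk1
      have hb1 : k < 1 := lt_of_le_of_ne ha1.2 hkne1
      have hb2 : -1 < k := lt_of_le_of_ne ha1.1 (Ne.symm hkne2)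
      nlinarith
    have hs2 : s ^ 2 ≤ 1 := by
      have ha1 := abs_le.1 hs1
      nlinarith
    obtain ⟨n, hn1, han, hbn⟩ := ta_perp a b
    have hba : inner ℝ b a = k := by rw [real_inner_comm]
    have haa : inner ℝ a a = (1 : ℝ) := by rw [real_inner_self_eq_norm_sq, ha, one_pow]
    have hbb : inner ℝ b b = (1 : ℝ) := by rw [real_inner_self_eq_norm_sq, hb, one_pow]
    -- the point v'
    have hv'n : ‖s • a + Real.sqrt (1 - s ^ 2) • n‖ = 1 := by
      apply ta_norm a n ha hn1 han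
      rw [Real.sq_sqrt (by linarith)]
      ring
    have hv'a : inner ℝ a (s • a + Real.sqrt (1 - s ^ 2) • n) = s := by
      rw [inner_add_right, inner_smul_right, inner_smul_right, haa, han]
      ring
    have hv'b : inner ℝ b (s • a + Real.sqrt (1 - s ^ 2) • n) = s * k := by
      rw [inner_add_right, inner_smul_right, inner_smul_right, hba, hbn]
      ring
    have e1 : f (s • a + Real.sqrt (1 - s ^ 2) • n) = f v :=
      h1 _ ((hmem _).2 hv'n) v hv1 (by rw [hv'a])
    -- the vector m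
    set Q : ℝ := Real.sqrt (1 - k ^ 2) with hQ
    have hQpos : 0 < Q := Real.sqrt_pos.2 (by linarith)
    have hQ2 : Q ^ 2 = 1 - k ^ 2 := Real.sq_sqrt (by linarith)
    set m : E := Q⁻¹ • (a - k • b) with hm
    have hmn : ‖m‖ = 1 := by
      have h3 : ‖a - k • b‖ ^ 2 = Q ^ 2 := by
        rw [norm_sub_sq_real, norm_smul, ha, hb, inner_smul_right, ← hk, hQ2]
        simp only [Real.norm_eq_abs, mul_one, sq_abs]
        ring
      have h4 : ‖a - k • b‖ = Q := by
        have h5 := congrArg Real.sqrt h3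
        rwa [Real.sqrt_sq (norm_nonneg _), Real.sqrt_sq hQpos.le] at h5
      rw [hm, norm_smul, h4, norm_inv, Real.norm_of_nonneg hQpos.le]
      exact inv_mul_cancel₀ hQpos.ne'
    have hbm : inner ℝ b m = (0 : ℝ) := by
      rw [hm, inner_smul_right, inner_sub_right, inner_smul_right, hba, hbb]
      ring
    have ham : inner ℝ a m = Q := by
      rw [hm, inner_smul_right, inner_sub_right, inner_smul_right, haa, ← hk]
      have : (1 : ℝ) - k * k = Q ^ 2 := by rw [hQ2]; ring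
      rw [this]
      field_simp
    set P : ℝ := Real.sqrt (1 - (s * k) ^ 2) with hP
    have hsk : (s * k) ^ 2 < 1 := by
      rw [mul_pow]
      nlinarith [sq_nonneg k, sq_nonneg s]
    have hPpos : 0 < P := Real.sqrt_pos.2 (by linarith)
    have hP2 : P ^ 2 = 1 - (s * k) ^ 2 := Real.sq_sqrt (by linarith)
    have hxn : ‖(s * k) • b + P • m‖ = 1 := by
      apply ta_norm b m hb hmn hbm
      rw [hP2]
      ring
    have hxb : inner ℝ b ((s * k) • b + P • m) = s * k := by
      rw [inner_add_right, inner_smul_right, inner_smul_right, hbb, hbm]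
      ring
    have hxa : inner ℝ a ((s * k) • b + P • m) = s * k * k + P * Q := by
      rw [inner_add_right, inner_smul_right, inner_smul_right, ham, ← hk]
    have e2 : f ((s * k) • b + P • m) = f (s • a + Real.sqrt (1 - s ^ 2) • n) :=
      h2 _ ((hmem _).2 hxn) _ ((hmem _).2 hv'n) (by rw [hxb, hv'b])
    have hxK : (s * k) • b + P • m ∈ S2 ∩ f ⁻¹' {f u} :=
      ⟨(hmem _).2 hxn, by
        show f _ = f u
        rw [e2, e1, hv2']⟩
    have hle := hvmax hxK
    have hle' : inner ℝ a ((s * k) • b + P • m) ≤ s := hle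
    rw [hxa] at hle'
    have hPQ : s * Q < P := by
      rcases le_or_gt s 0 with hs0 | hs0
      · have : s * Q ≤ 0 := mul_nonpos_of_nonpos_of_nonneg hs0 hQpos.le
        linarith
      · apply lt_of_pow_lt_pow_left₀ 2 hPpos.le
        rw [mul_pow, hQ2, hP2, mul_pow]
        nlinarith
    have : s * Q * Q < P * Q := mul_lt_mul_of_pos_right hPQ hQpos
    have h6 : s * Q * Q = s * (1 - k ^ 2) := by rw [← hQ2]; ring
    nlinarith

end JZF

namespace JZG

theorem exists_rot (a : E) (ha : ‖a‖ = 1) :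
    ∃ O : E ≃ₗᵢ[ℝ] E, O (EuclideanSpace.single 2 (1 : ℝ)) = a := by
  refine ⟨Submodule.reflection (ℝ ∙ (EuclideanSpace.single 2 (1 : ℝ) - a))ᗮ, ?_⟩
  apply Submodule.reflection_sub
  rw [ha]
  simp

theorem exists_refl (a x y : E) (h : inner ℝ a x = inner ℝ a y) (hn : ‖x‖ = ‖y‖) :
    ∃ O : E ≃ₗᵢ[ℝ] E, O a = a ∧ O x = y := by
  refine ⟨Submodule.reflection (ℝ ∙ (x - y))ᗮ, ?_, Submodule.reflection_sub hn⟩
  apply Submodule.reflection_mem_subspace_eq_self
  rw [Submodule.mem_orthogonal_singleton_iff_inner_left, inner_sub_right, h, sub_self]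

end JZG

namespace JZI

theorem w_ne (θ : ℝ) : w (Real.sin θ) (Real.cos θ) ≠ 0 := by
  intro h
  have h0 : (w (Real.sin θ) (Real.cos θ)) 0 = 0 := by rw [h]; rfl
  have h2 : (w (Real.sin θ) (Real.cos θ)) 2 = 0 := by rw [h]; rfl
  simp [w] at h0 h2
  have := Real.sin_sq_add_cos_sq θ
  rw [h0, h2] at this
  norm_num at this

theorem rr_cont (F : E → ℝ) (hS : Smooth2 F) : Continuous (fun θ => rr F θ) := by
  have hopen : IsOpen {x : E | x ≠ 0} := isOpen_ne
  have h1 : ContinuousOn (fderiv ℝ F) {x : E | x ≠ 0} :=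
    ContDiffOn.continuousOn_fderiv_of_isOpen hS hopen (by norm_num)
  have hw : Continuous (fun θ : ℝ => w (Real.sin θ) (Real.cos θ)) := by
    unfold w
    fun_prop
  have h2 : Continuous (fun θ : ℝ => fderiv ℝ F (w (Real.sin θ) (Real.cos θ))) := by
    have := h1.comp_continuous hw (fun θ => w_ne θ)
    exact this
  unfold rr
  exact h2.clm_apply continuous_const

theorem rr_const (F : E → ℝ) (hS : Smooth2 F) (c : ℝ) (hr0 : rr F 0 = 0)
    (hr : ∀ θ : ℝ, HasDerivAt (fun θ => rr F θ ^ 2) (2 * (Real.sin θ * Real.cos θ * c)) θ) :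
    0 ≤ c ∧ (∀ θ ∈ Set.Icc (0 : ℝ) Real.pi, rr F θ = Real.sqrt c * Real.sin θ) ∨
    0 ≤ c ∧ (∀ θ ∈ Set.Icc (0 : ℝ) Real.pi, rr F θ = - (Real.sqrt c * Real.sin θ)) := by
  have hsq : ∀ θ : ℝ, rr F θ ^ 2 = c * Real.sin θ ^ 2 := by
    have hd : ∀ θ : ℝ, HasDerivAt (fun θ => rr F θ ^ 2 - c * Real.sin θ ^ 2) 0 θ := by
      intro θ
      have h1 := hr θ
      have h2 : HasDerivAt (fun θ : ℝ => c * Real.sin θ ^ 2)
          (c * (2 * Real.sin θ * Real.cos θ)) θ := by
        have := ((Real.hasDerivAt_sin θ).pow 2).const_mul c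
        refine this.congr_deriv ?_
        norm_num
      have h3 := h1.sub h2
      refine h3.congr_deriv ?_
      ring
    have hconst : ∀ θ : ℝ, rr F θ ^ 2 - c * Real.sin θ ^ 2 = rr F 0 ^ 2 - c * Real.sin 0 ^ 2 := by
      intro θ
      have hdiff : Differentiable ℝ (fun θ => rr F θ ^ 2 - c * Real.sin θ ^ 2) :=
        fun θ => (hd θ).differentiableAt
      exact is_const_of_deriv_eq_zero hdiff (fun θ => (hd θ).deriv) θ 0
    intro θ
    have := hconst θ
    rw [hr0] at this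
    simp at this
    linarith
  have hc : 0 ≤ c := by
    have := hsq (Real.pi / 2)
    rw [Real.sin_pi_div_two] at this
    have h2 := sq_nonneg (rr F (Real.pi / 2))
    rw [this] at h2
    simpa using h2
  rcases hc.eq_or_lt with h0 | hpos
  · left
    refine ⟨hc, fun θ _ => ?_⟩
    have := hsq θ
    rw [← h0] at this
    simp at this
    rw [← h0]
    simp [this]
  · have hcs : 0 < Real.sqrt c := Real.sqrt_pos.mpr hpos
    have hend : ∀ θ : ℝ, Real.sin θ = 0 → rr F θ = 0 := by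
      intro θ h
      have := hsq θ
      rw [h] at this
      simpa using this
    have key := (isPreconnected_Ioo (a := (0 : ℝ)) (b := Real.pi)).eq_or_eq_neg_of_sq_eq
      (f := fun θ => rr F θ) (g := fun θ => Real.sqrt c * Real.sin θ)
      (rr_cont F hS).continuousOn (by fun_prop)
      (by
        intro θ _
        simp only [Pi.pow_apply]
        rw [hsq θ, mul_pow, Real.sq_sqrt hc])
      (by
        intro θ hθ
        exact (mul_pos hcs (Real.sin_pos_of_pos_of_lt_pi hθ.1 hθ.2)).ne')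
    rcases key with h | h
    · left
      refine ⟨hc, fun θ hθ => ?_⟩
      rcases hθ.1.eq_or_lt with h1 | h1
      · rw [← h1, hend 0 Real.sin_zero]; simp
      rcases hθ.2.eq_or_lt with h2 | h2
      · rw [h2, hend Real.pi Real.sin_pi]; simp
      exact h ⟨h1, h2⟩
    · right
      refine ⟨hc, fun θ hθ => ?_⟩
      rcases hθ.1.eq_or_lt with h1 | h1
      · rw [← h1, hend 0 Real.sin_zero]; simp
      rcases hθ.2.eq_or_lt with h2 | h2
      · rw [h2, hend Real.pi Real.sin_pi]; simp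
      exact h ⟨h1, h2⟩

end JZI

namespace JZJ

theorem M_cont (F : E → ℝ) (hS : Smooth2 F) (i j : Fin 3) :
    ContinuousOn (fun u => M F u i j) {x : E | x ≠ 0} := by
  have ho : IsOpen {x : E | x ≠ 0} := isOpen_ne
  have h0 : ContDiffOn ℝ 2 F {x : E | x ≠ 0} := hS
  have h1 : ContDiffOn ℝ 1 (fderiv ℝ F) {x : E | x ≠ 0} :=
    h0.fderiv_of_isOpen ho (by norm_num)
  have h2 : ContDiffOn ℝ 0 (fderiv ℝ (fderiv ℝ F)) {x : E | x ≠ 0} :=
    h1.fderiv_of_isOpen ho (by norm_num)
  have h3 := h2.continuousOn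
  unfold M
  exact (h3.clm_apply continuousOn_const).clm_apply continuousOn_const

theorem R_cont (F : E → ℝ) (hS : Smooth2 F) : ContinuousOn (R F) S2 := by
  have hsub : S2 ⊆ {x : E | x ≠ 0} := by
    intro x hx h0
    have h1 : dist x 0 = 1 := hx
    rw [h0, dist_self] at h1
    exact zero_ne_one h1
  have hM : ∀ i j, ContinuousOn (fun u => M F u i j) S2 := fun i j => (M_cont F hS i j).mono hsub
  unfold R
  exact ((((hM 0 0).mul (hM 1 1)).sub ((hM 0 1).mul (hM 1 0))).add
    (((hM 0 0).mul (hM 2 2)).sub ((hM 0 2).mul (hM 2 0)))).add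
    (((hM 1 1).mul (hM 2 2)).sub ((hM 1 2).mul (hM 2 1)))

theorem rr_norm (θ : ℝ) : rr (fun x : E => ‖x‖) θ = Real.sin θ := by
  unfold rr
  set x : E := w (Real.sin θ) (Real.cos θ) with hx
  have hn : ‖x‖ ^ 2 = 1 := by
    rw [EuclideanSpace.norm_sq_eq, Fin.sum_univ_three]
    have a0 : x 0 = Real.sin θ := by simp [hx, w]
    have a1 : x 1 = 0 := by simp [hx, w]
    have a2 : x 2 = Real.cos θ := by simp [hx, w]
    rw [a0, a1, a2]
    simp only [Real.norm_eq_abs, sq_abs]
    nlinarith [Real.sin_sq_add_cos_sq θ]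
  have hne : ‖x‖ ^ 2 ≠ 0 := by rw [hn]; exact one_ne_zero
  have h1 := ((hasStrictFDerivAt_norm_sq x).hasFDerivAt).sqrt hne
  have h2 : (fun y : E => Real.sqrt (‖y‖ ^ 2)) = fun y : E => ‖y‖ := by
    funext y
    exact Real.sqrt_sq (norm_nonneg y)
  have h3 : HasFDerivAt (fun y : E => ‖y‖) ((1 / (2 * Real.sqrt (‖x‖ ^ 2))) • (2 • innerSL ℝ x)) x := by
    rw [← h2]
    exact h1
  rw [h3.fderiv, hn, Real.sqrt_one]
  have a0 : x 0 = Real.sin θ := by simp [hx, w]
  simp [EuclideanSpace.inner_single_right, a0]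

theorem smooth_norm : Smooth2 (fun x : E => ‖x‖) := by
  intro x hx
  exact (contDiffAt_norm ℝ hx).contDiffWithinAt

end JZJ

namespace JY1

theorem rr_odd (F : E → ℝ) (hS : Smooth2 F) (hZ : Zon F) (θ : ℝ) : rr F (-θ) = - rr F θ := by
  have key : ∀ s c : ℝ, w s c ≠ 0 →
      HasDerivAt (fun h : ℝ => F (w s c + h • EuclideanSpace.single 0 (1 : ℝ)))
        (fderiv ℝ F (w s c) (EuclideanSpace.single 0 (1 : ℝ))) 0 := by
    intro s c hne
    have h1 : DifferentiableAt ℝ F (w s c) :=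
      (hS.contDiffAt (isOpen_ne.mem_nhds hne)).differentiableAt (by norm_num)
    have h2 : HasDerivAt (fun h : ℝ => w s c + h • (EuclideanSpace.single 0 (1 : ℝ) : E))
        (EuclideanSpace.single 0 (1 : ℝ) : E) 0 := by
      simpa using ((hasDerivAt_id (0 : ℝ)).smul_const
        (EuclideanSpace.single 0 (1 : ℝ) : E)).const_add (w s c)
    have h3 : HasFDerivAt F (fderiv ℝ F (w s c))
        (w s c + (0 : ℝ) • (EuclideanSpace.single 0 (1 : ℝ) : E)) := by
      rw [zero_smul, add_zero]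
      exact h1.hasFDerivAt
    exact h3.comp_hasDerivAt 0 h2
  have hw0 : ∀ s c : ℝ, (w s c) 0 = s := by
    intro s c
    simp [w]
  have hw1 : ∀ s c : ℝ, (w s c) 1 = 0 := by
    intro s c
    simp [w]
  have hw2 : ∀ s c : ℝ, (w s c) 2 = c := by
    intro s c
    simp [w]
  have hne : ∀ s c : ℝ, s ^ 2 + c ^ 2 = 1 → w s c ≠ 0 := by
    intro s c h h0
    have h1 := hw0 s c
    have h2 := hw2 s c
    rw [h0] at h1 h2
    have h1' : s = 0 := h1.symm
    have h2' : c = 0 := h2.symm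
    rw [h1', h2'] at h
    norm_num at h
  have hadd : ∀ s c h : ℝ, w s c + h • EuclideanSpace.single 0 (1 : ℝ) = w (s + h) c := by
    intro s c h
    unfold w
    rw [add_smul]
    abel
  have hsymm : ∀ s c : ℝ, F (w s c) = F (w (-s) c) := by
    intro s c
    apply hZ
    · rw [hw2, hw2]
    · rw [EuclideanSpace.norm_eq, EuclideanSpace.norm_eq, Fin.sum_univ_three, Fin.sum_univ_three,
        hw0, hw0, hw1, hw1, hw2, hw2, norm_neg]
  have hsc : Real.sin θ ^ 2 + Real.cos θ ^ 2 = 1 := Real.sin_sq_add_cos_sq θ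
  have h1 := key (Real.sin θ) (Real.cos θ) (hne _ _ hsc)
  have h2 := key (-Real.sin θ) (Real.cos θ) (hne _ _ (by rw [neg_sq]; exact hsc))
  have h3 : HasDerivAt (fun h : ℝ => F (w (-Real.sin θ) (Real.cos θ) +
      (-h) • EuclideanSpace.single 0 (1 : ℝ)))
        (fderiv ℝ F (w (-Real.sin θ) (Real.cos θ)) (EuclideanSpace.single 0 (1 : ℝ)) * (-1)) 0 := by
    have h4 : HasDerivAt (fun h : ℝ => F (w (-Real.sin θ) (Real.cos θ) +
      h • EuclideanSpace.single 0 (1 : ℝ)))
        (fderiv ℝ F (w (-Real.sin θ) (Real.cos θ)) (EuclideanSpace.single 0 (1 : ℝ))) (-0) := by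
      rw [neg_zero]
      exact h2
    exact HasDerivAt.comp (0 : ℝ) h4 (hasDerivAt_neg (0 : ℝ))
  have h5 : (fun h : ℝ => F (w (-Real.sin θ) (Real.cos θ) +
      (-h) • EuclideanSpace.single 0 (1 : ℝ))) =
      fun h : ℝ => F (w (Real.sin θ) (Real.cos θ) + h • EuclideanSpace.single 0 (1 : ℝ)) := by
    funext h
    rw [hadd, hadd, hsymm (Real.sin θ + h), neg_add]
  rw [h5] at h3
  have h6 := h3.unique h1
  unfold rr
  rw [Real.sin_neg, Real.cos_neg, ← h6]
  ring

end JY1

namespace JY3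

theorem sign_plus (H : ℝ → E → ℝ) (h1 : ∀ t ∈ Set.Icc (0 : ℝ) 1, Hom1 (H t))
    (hc : ∀ x : E, x ≠ 0 → ContinuousOn (fun t => H t x) (Set.Icc (0 : ℝ) 1))
    (h : ∀ t ∈ Set.Icc (0 : ℝ) 1, (∃ b : E, ∀ x : E, H t x = H 0 x + inner ℝ b x) ∨
      (∃ b : E, ∀ x : E, H t x = - H 0 x + inner ℝ b x)) :
    ∀ t ∈ Set.Icc (0 : ℝ) 1, ∃ b : E, ∀ x : E, H t x = H 0 x + inner ℝ b x := by
  have h0 : ∀ t ∈ Set.Icc (0:ℝ) 1, H t 0 = 0 := by
    intro t ht
    have := h1 t ht 0 2 (by norm_num)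
    rw [smul_zero] at this
    linarith
  have hcont : ∀ x : E, ContinuousOn (fun t => H t x) (Set.Icc (0:ℝ) 1) := by
    intro x
    by_cases hx : x = 0
    · subst hx
      refine (continuousOn_const (c := (0:ℝ))).congr ?_
      intro t ht
      exact h0 t ht
    · exact hc x hx
  have hz : (0:ℝ) ∈ Set.Icc (0:ℝ) 1 := ⟨le_refl _, zero_le_one⟩
  by_cases hcase : ∃ x y : E, H 0 (x+y) - H 0 x - H 0 y ≠ 0
  · obtain ⟨x, y, hxy⟩ := hcase
    set ψ : ℝ → ℝ := fun t => H t (x+y) - H t x - H t y with hψ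
    have hψ0 : ψ 0 ≠ 0 := hxy
    have hψc : ContinuousOn ψ (Set.Icc (0:ℝ) 1) := ((hcont (x+y)).sub (hcont x)).sub (hcont y)
    have hpm : ∀ t ∈ Set.Icc (0:ℝ) 1, ψ t = ψ 0 ∨ ψ t = - ψ 0 := by
      intro t ht
      rcases h t ht with ⟨b, hb⟩ | ⟨b, hb⟩
      · left
        show H t (x+y) - H t x - H t y = H 0 (x+y) - H 0 x - H 0 y
        rw [hb (x+y), hb x, hb y, inner_add_right]; ring
      · right
        show H t (x+y) - H t x - H t y = -(H 0 (x+y) - H 0 x - H 0 y)
        rw [hb (x+y), hb x, hb y, inner_add_right]; ring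
    have hsq : Set.EqOn (ψ ^ 2) ((fun _ => ψ 0) ^ 2) (Set.Icc (0:ℝ) 1) := by
      intro t ht
      show ψ t ^ 2 = ψ 0 ^ 2
      rcases hpm t ht with h' | h' <;> rw [h'] <;> ring
    have hor := IsPreconnected.eq_or_eq_neg_of_sq_eq (isPreconnected_Icc (a := (0:ℝ)) (b := 1)) hψc
      (continuousOn_const (c := ψ 0)) hsq (fun {t} _ => hψ0)
    have heq : ∀ t ∈ Set.Icc (0:ℝ) 1, ψ t = ψ 0 := by
      rcases hor with h' | h'
      · intro t ht; exact h' ht
      · exfalso
        have := h' hz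
        simp only [Pi.neg_apply] at this
        apply hψ0
        linarith
    intro t ht
    rcases h t ht with hb | ⟨b, hb⟩
    · exact hb
    · exfalso
      have h2 : ψ t = - ψ 0 := by
        show H t (x+y) - H t x - H t y = -(H 0 (x+y) - H 0 x - H 0 y)
        rw [hb (x+y), hb x, hb y, inner_add_right]; ring
      have h3 := heq t ht
      apply hψ0
      linarith
  · push Not at hcase
    have hadd : ∀ x y : E, H 0 (x+y) = H 0 x + H 0 y := by
      intro x y
      have := hcase x y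
      linarith
    have hneg : ∀ x : E, H 0 (-x) = - H 0 x := by
      intro x
      have := hadd x (-x)
      rw [add_neg_cancel, h0 0 hz] at this
      linarith
    have hsm : ∀ (c : ℝ) (x : E), H 0 (c • x) = c * H 0 x := by
      intro c x
      rcases lt_trichotomy c 0 with hc' | hc' | hc'
      · have h5 := h1 0 hz x (-c) (by linarith)
        have h6 := hneg ((-c) • x)
        rw [neg_smul, neg_neg] at h6
        rw [neg_smul] at h5
        rw [h6, h5]; ring
      · subst hc'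
        rw [zero_smul, h0 0 hz]; ring
      · exact h1 0 hz x c hc'
    let L : E →ₗ[ℝ] ℝ :=
      { toFun := H 0
        map_add' := hadd
        map_smul' := fun c x => by
          rw [hsm c x]; rfl }
    set b0 : E := (InnerProductSpace.toDual ℝ E).symm (LinearMap.toContinuousLinearMap L) with hb0
    have hL : ∀ x : E, inner ℝ b0 x = H 0 x := by
      intro x
      rw [hb0, InnerProductSpace.toDual_symm_apply]
      rfl
    intro t ht
    rcases h t ht with hb | ⟨b, hb⟩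
    · exact hb
    · refine ⟨b - (2:ℝ) • b0, fun x => ?_⟩
      rw [hb x, inner_sub_left, inner_smul_left, hL x]
      simp
      ring

end JY3

namespace JY4

theorem aux_fderiv_sub (F : E → ℝ) (hS : Smooth2 F) (b x : E) (hx : x ≠ 0) :
    fderiv ℝ (fun x => F x - inner ℝ b x) x = fderiv ℝ F x - innerSL ℝ b := by
  have hF : DifferentiableAt ℝ F x :=
    (ContDiffOn.contDiffAt hS (isOpen_ne.mem_nhds hx)).differentiableAt (by norm_num)
  have h1 : (fun x => F x - inner ℝ b x) = fun x => F x - (innerSL ℝ b) x := by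
    funext y
    simp
  rw [h1, fderiv_fun_sub hF (innerSL ℝ b).differentiableAt, ContinuousLinearMap.fderiv]

theorem aux_M_sub (F : E → ℝ) (hS : Smooth2 F) (b u : E) (hu : u ≠ 0) (i j : Fin 3) :
    M (fun x => F x - inner ℝ b x) u i j = M F u i j := by
  unfold M
  have h1 : fderiv ℝ (fun x => F x - inner ℝ b x) =ᶠ[nhds u]
      fun x => fderiv ℝ F x - innerSL ℝ b := by
    filter_upwards [isOpen_ne.mem_nhds hu] with x hx
    exact aux_fderiv_sub F hS b x hx
  rw [h1.fderiv_eq, fderiv_sub_const]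

theorem R_sub_lin (F : E → ℝ) (hS : Smooth2 F) (b u : E) (hu : u ≠ 0) :
    R (fun x => F x - inner ℝ b x) u = R F u := by
  unfold R
  simp only [aux_M_sub F hS b u hu]

theorem smooth_sub_lin (F : E → ℝ) (hS : Smooth2 F) (b : E) :
    Smooth2 (fun x => F x - inner ℝ b x) := by
  unfold Smooth2 at *
  exact hS.sub ((contDiff_const.inner ℝ contDiff_id).contDiffOn)

theorem hom_sub_lin (F : E → ℝ) (hF : Hom1 F) (b : E) : Hom1 (fun x => F x - inner ℝ b x) := by
  intro x c hc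
  simp only [hF x c hc, real_inner_smul_right]
  ring

theorem fderiv_sub_lin (F : E → ℝ) (hS : Smooth2 F) (b x v : E) (hx : x ≠ 0) :
    fderiv ℝ (fun x => F x - inner ℝ b x) x v = fderiv ℝ F x v - inner ℝ b v := by
  rw [aux_fderiv_sub F hS b x hx]
  simp

end JY4

namespace JY5

theorem inner_O_aux (O : E ≃ₗᵢ[ℝ] E) (a : E) (hO : O (EuclideanSpace.single 2 (1 : ℝ)) = a) (x : E) :
    inner ℝ a (O x) = x 2 := by
  rw [← hO, LinearIsometryEquiv.inner_map_map, EuclideanSpace.inner_single_left]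
  simp

theorem hom_comp (O : E ≃ₗᵢ[ℝ] E) (F : E → ℝ) (hF : Hom1 F) : Hom1 (fun x => F (O x)) := by
  intro x c hc
  show F (O (c • x)) = c * F (O x)
  rw [map_smul]
  exact hF (O x) c hc

theorem smooth_comp (O : E ≃ₗᵢ[ℝ] E) (F : E → ℝ) (hS : Smooth2 F) : Smooth2 (fun x => F (O x)) := by
  have h1 : ContDiffOn ℝ 2 (fun x : E => O x) {x : E | x ≠ 0} :=
    O.toContinuousLinearEquiv.contDiff.contDiffOn
  refine ContDiffOn.comp (g := F) hS h1 ?_
  intro x hx h0
  apply hx
  have h2 : O x = 0 := h0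
  simpa using h2

theorem zon_comp (O : E ≃ₗᵢ[ℝ] E) (a : E) (hO : O (EuclideanSpace.single 2 (1 : ℝ)) = a)
    (F : E → ℝ) (hZ : ZonAt a F) : Zon (fun x => F (O x)) := by
  intro x y h1 h2
  apply hZ
  · rw [inner_O_aux O a hO, inner_O_aux O a hO, h1]
  · rw [LinearIsometryEquiv.norm_map, LinearIsometryEquiv.norm_map, h2]

theorem fderiv_comp_O (O : E ≃ₗᵢ[ℝ] E) (F : E → ℝ) (hS : Smooth2 F) (x v : E) (hx : x ≠ 0) :
    fderiv ℝ (fun x => F (O x)) x v = fderiv ℝ F (O x) (O v) := by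
  have hOx : O x ≠ 0 := by
    intro h
    apply hx
    simpa using h
  have hopen : IsOpen {x : E | x ≠ 0} := isOpen_ne
  have hd : DifferentiableAt ℝ F (O x) :=
    (hS.differentiableOn (by norm_num)).differentiableAt (hopen.mem_nhds hOx)
  have hO : HasFDerivAt (fun x : E => O x) (O.toContinuousLinearEquiv : E →L[ℝ] E) x :=
    O.toContinuousLinearEquiv.hasFDerivAt
  have h1 := hd.hasFDerivAt.comp x hO
  have h2 : fderiv ℝ (fun x => F (O x)) x = (fderiv ℝ F (O x)).comp (O.toContinuousLinearEquiv : E →L[ℝ] E) :=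
    h1.fderiv
  rw [h2]
  rfl

theorem inner_O (O : E ≃ₗᵢ[ℝ] E) (a : E) (hO : O (EuclideanSpace.single 2 (1 : ℝ)) = a) (x : E) :
    inner ℝ a (O x) = x 2 := inner_O_aux O a hO x

end JY5

theorem rr_sq (F : E → ℝ) (hF : Hom1 F) (hS : Smooth2 F) (hZ : Zon F) (θ : ℝ) :
    HasDerivAt (fun θ => rr F θ ^ 2)
      (2 * (Real.sin θ * Real.cos θ * R F (w (Real.sin θ) (Real.cos θ)))) θ := by
  have h1 := (JZB1.rr_hasDeriv F hS θ).pow 2
  have h2 := JZB2.rr_alg F hF hS (fun x hx => JZA.rot_identity F hS hZ x hx) θ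
  refine h1.congr_deriv ?_
  rw [← h2]
  push_cast
  ring

theorem rr_zero (F : E → ℝ) (hS : Smooth2 F) (hZ : Zon F) : rr F 0 = 0 :=
  JZA2.rr_zero F hS (fun x hx => JZA.rot_identity F hS hZ x hx)

theorem w_norm (θ : ℝ) : ‖w (Real.sin θ) (Real.cos θ)‖ = 1 :=
  JZC.w_norm _ _ (Real.sin_sq_add_cos_sq θ)

theorem w_ne (θ : ℝ) : w (Real.sin θ) (Real.cos θ) ≠ 0 := by
  intro h
  have := w_norm θ
  rw [h, norm_zero] at this
  exact zero_ne_one this

theorem w_mem (θ : ℝ) : w (Real.sin θ) (Real.cos θ) ∈ S2 := by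
  rw [mem_sphere_iff_norm, sub_zero]
  exact w_norm θ

theorem S2_ne {u : E} (hu : u ∈ S2) : u ≠ 0 := by
  rintro rfl
  simp at hu

theorem diffAt {F : E → ℝ} (hS : Smooth2 F) {x : E} (hx : x ≠ 0) : DifferentiableAt ℝ F x :=
  (hS.contDiffAt (isOpen_ne.mem_nhds hx)).differentiableAt (by norm_num)

theorem rr_sub {F G : E → ℝ} (hF : Smooth2 F) (hG : Smooth2 G) (θ : ℝ) :
    rr (fun x => F x - G x) θ = rr F θ - rr G θ := by
  unfold rr
  rw [fderiv_fun_sub (diffAt hF (w_ne θ)) (diffAt hG (w_ne θ))]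
  rfl

/-- If two symmetric functions have the same `rr`, they differ by a multiple of `x 2`. -/
theorem zonal_sub {F G : E → ℝ} (hF : Hom1 F) (hG : Hom1 G) (sF : Smooth2 F) (sG : Smooth2 G)
    (zF : Zon F) (zG : Zon G) (h : ∀ θ ∈ Set.Icc (0 : ℝ) Real.pi, rr F θ = rr G θ) :
    ∃ α : ℝ, ∀ x : E, F x = G x + α * x 2 := by
  obtain ⟨α, hα⟩ := JZD.zonal_linear (fun x => F x - G x)
    (fun x c hc => by simp only [hF x c hc, hG x c hc]; ring) (sF.sub sG)
    (fun x y h1 h2 => by simp only [zF x y h1 h2, zG x y h1 h2])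
    (fun θ hθ => by rw [rr_sub sF sG, h θ hθ, sub_self])
  exact ⟨α, fun x => by linarith [hα x]⟩

/-- Families of hedgehogs with a common direction of the axes. -/
theorem common_axis (H : ℝ → E → ℝ) (hH : Family H) (a : E) (ha : ‖a‖ = 1) (b : ℝ → E)
    (hZ : ∀ t ∈ Set.Icc (0 : ℝ) 1, ZonAt a (fun x => H t x - inner ℝ (b t) x)) :
    ∀ t ∈ Set.Icc (0 : ℝ) 1, ∃ b : E, ∀ x : E, H t x = H 0 x + inner ℝ b x := by
  obtain ⟨O, hO⟩ := JZG.exists_rot a ha
  have h0 : (0 : ℝ) ∈ Set.Icc (0 : ℝ) 1 := by simp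
  have sm : ∀ t ∈ Set.Icc (0 : ℝ) 1, Smooth2 (fun x => H t x - inner ℝ (b t) x) := fun t ht =>
    JY4.smooth_sub_lin (H t) (hH.smooth t ht) (b t)
  have ho : ∀ t ∈ Set.Icc (0 : ℝ) 1, Hom1 (fun x => H t x - inner ℝ (b t) x) := fun t ht =>
    JY4.hom_sub_lin (H t) (hH.hom t ht) (b t)
  let K : ℝ → E → ℝ := fun t x => H t (O x) - inner ℝ (b t) (O x)
  have sK : ∀ t ∈ Set.Icc (0 : ℝ) 1, Smooth2 (K t) := fun t ht =>
    JY5.smooth_comp O _ (sm t ht)
  have oK : ∀ t ∈ Set.Icc (0 : ℝ) 1, Hom1 (K t) := fun t ht => JY5.hom_comp O _ (ho t ht)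
  have zK : ∀ t ∈ Set.Icc (0 : ℝ) 1, Zon (K t) := fun t ht => JY5.zon_comp O a hO _ (hZ t ht)
  have rK : ∀ t ∈ Set.Icc (0 : ℝ) 1, ∀ u ∈ S2, R (K t) u = R (H t) (O u) := by
    intro t ht u hu
    have hne : O u ≠ 0 := by
      intro h
      exact S2_ne hu (O.map_eq_zero_iff.1 h)
    have h1 := JZE.R_comp O _ (sm t ht) u (S2_ne hu)
    rw [JY4.R_sub_lin (H t) (hH.smooth t ht) (b t) (O u) hne] at h1
    exact h1
  have hOS : ∀ u ∈ S2, O u ∈ S2 := by
    intro u hu
    rw [mem_sphere_iff_norm, sub_zero] at hu ⊢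
    rw [O.norm_map, hu]
  have rrK : ∀ t ∈ Set.Icc (0 : ℝ) 1, ∀ θ : ℝ, rr (K t) θ =
      fderiv ℝ (H t) (O (w (Real.sin θ) (Real.cos θ))) (O (EuclideanSpace.single 0 (1 : ℝ)))
        - inner ℝ (b t) (O (EuclideanSpace.single 0 (1 : ℝ))) := by
    intro t ht θ
    have hne : O (w (Real.sin θ) (Real.cos θ)) ≠ 0 := fun h => w_ne θ (O.map_eq_zero_iff.1 h)
    have h1 := JY5.fderiv_comp_O O _ (sm t ht) (w (Real.sin θ) (Real.cos θ))
      (EuclideanSpace.single 0 (1 : ℝ)) (w_ne θ)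
    rw [JY4.fderiv_sub_lin (H t) (hH.smooth t ht) (b t) _ _ hne] at h1
    exact h1
  have hcont : ∀ θ : ℝ, ContinuousOn (fun t => rr (K t) θ) (Set.Icc (0 : ℝ) 1) := by
    intro θ
    have h1 : ∀ θ : ℝ, ContinuousOn (fun t : ℝ =>
        fderiv ℝ (H t) (O (w (Real.sin θ) (Real.cos θ))) (O (EuclideanSpace.single 0 (1 : ℝ))))
        (Set.Icc (0 : ℝ) 1) := by
      intro θ
      have h2 : ContinuousOn (fun t : ℝ => fderiv ℝ (H t) (O (w (Real.sin θ) (Real.cos θ))))
          (Set.Icc (0 : ℝ) 1) := by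
        refine hH.cont1.comp (f := fun t : ℝ => (t, O (w (Real.sin θ) (Real.cos θ))))
          (Continuous.continuousOn (by fun_prop)) ?_
        intro t ht
        exact ⟨ht, fun h => w_ne θ (O.map_eq_zero_iff.1 h)⟩
      exact h2.clm_apply continuousOn_const
    have h3 := ((h1 θ).sub (h1 (-θ))).div_const 2
    refine h3.congr ?_
    intro t ht
    have e1 := rrK t ht θ
    have e2 := rrK t ht (-θ)
    have e3 := JY1.rr_odd (K t) (sK t ht) (zK t ht) θ
    simp only [Pi.sub_apply]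
    linarith
  have key := JZC.rr_eq K hcont (fun t ht => rr_zero (K t) (sK t ht) (zK t ht))
    (fun t ht θ => rr_sq (K t) (oK t ht) (sK t ht) (zK t ht) θ)
    (fun t ht u hu => by rw [rK t ht u hu, rK 0 h0 u hu, hH.curv t ht (O u) (hOS u hu)])
  intro t ht
  obtain ⟨α, hα⟩ := zonal_sub (oK t ht) (oK 0 h0) (sK t ht) (sK 0 h0) (zK t ht) (zK 0 h0)
    (fun θ _ => key t ht θ)
  refine ⟨b t - b 0 + α • a, fun y => ?_⟩
  have h1 := hα (O.symm y)
  have h2 := JY5.inner_O O a hO (O.symm y)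
  simp only [K, LinearIsometryEquiv.apply_symm_apply] at h1 h2
  rw [inner_add_left, inner_sub_left, inner_smul_left, h2]
  simp only [conj_trivial]
  linarith

/-- The case of constant curvature function. -/
theorem const_case (F : E → ℝ) (hF : Hom1 F) (hS : Smooth2 F) (hrev : IsRev F) (c : ℝ)
    (hc : ∀ u ∈ S2, R F u = c) :
    (∃ b : E, ∀ x : E, F x = Real.sqrt c * ‖x‖ + inner ℝ b x) ∨
    (∃ b : E, ∀ x : E, F x = - (Real.sqrt c * ‖x‖) + inner ℝ b x) := by
  obtain ⟨a, b, ha, hZ⟩ := hrev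
  obtain ⟨O, hO⟩ := JZG.exists_rot a ha
  have sm := JY4.smooth_sub_lin F hS b
  have ho := JY4.hom_sub_lin F hF b
  let K : E → ℝ := fun x => F (O x) - inner ℝ b (O x)
  have sK : Smooth2 K := JY5.smooth_comp O _ sm
  have oK : Hom1 K := JY5.hom_comp O _ ho
  have zK : Zon K := JY5.zon_comp O a hO _ hZ
  have hOS : ∀ u ∈ S2, O u ∈ S2 := by
    intro u hu
    rw [mem_sphere_iff_norm, sub_zero] at hu ⊢
    rw [O.norm_map, hu]
  have rK : ∀ u ∈ S2, R K u = c := by
    intro u hu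
    have hne : O u ≠ 0 := by
      intro h
      exact S2_ne hu (O.map_eq_zero_iff.1 h)
    have h1 := JZE.R_comp O _ sm u (S2_ne hu)
    rw [JY4.R_sub_lin F hS b (O u) hne, hc _ (hOS u hu)] at h1
    exact h1
  have hr : ∀ θ : ℝ, HasDerivAt (fun θ => rr K θ ^ 2) (2 * (Real.sin θ * Real.cos θ * c)) θ := by
    intro θ
    have := rr_sq K oK sK zK θ
    rwa [rK _ (w_mem θ)] at this
  have hback : ∀ (ε α : ℝ), (∀ x : E, K x = ε * (Real.sqrt c * ‖x‖) + α * x 2) →
      ∀ y : E, F y = ε * (Real.sqrt c * ‖y‖) + inner ℝ (b + α • a) y := by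
    intro ε α hα y
    have h1 := hα (O.symm y)
    have h2 := JY5.inner_O O a hO (O.symm y)
    simp only [K, LinearIsometryEquiv.apply_symm_apply, LinearIsometryEquiv.norm_map] at h1 h2
    rw [inner_add_left, inner_smul_left, h2]
    simp only [conj_trivial]
    linarith
  have hN : ∀ ε : ℝ, Hom1 (fun x : E => ε * ‖x‖) ∧ Smooth2 (fun x : E => ε * ‖x‖) ∧
      Zon (fun x : E => ε * ‖x‖) ∧ ∀ θ, rr (fun x : E => ε * ‖x‖) θ = ε * Real.sin θ := by
    intro ε
    refine ⟨?_, ?_, ?_, ?_⟩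
    · intro x c hc
      simp only [norm_smul, Real.norm_eq_abs, abs_of_pos hc]
      ring
    · exact contDiffOn_const.mul JZJ.smooth_norm
    · intro x y _ h
      simp only [h]
    · intro θ
      rw [← JZJ.rr_norm θ]
      unfold rr
      rw [fderiv_const_mul (diffAt JZJ.smooth_norm (w_ne θ))]
      rfl
  rcases JZI.rr_const K sK c (rr_zero K sK zK) hr with ⟨_, h⟩ | ⟨_, h⟩
  · left
    obtain ⟨n1, n2, n3, n4⟩ := hN (Real.sqrt c)
    obtain ⟨α, hα⟩ := zonal_sub oK n1 sK n2 zK n3 (fun θ hθ => by rw [h θ hθ, n4])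
    refine ⟨b + α • a, fun y => ?_⟩
    rw [hback 1 α (fun x => by rw [hα x]; ring) y]
    ring
  · right
    obtain ⟨n1, n2, n3, n4⟩ := hN (-Real.sqrt c)
    obtain ⟨α, hα⟩ := zonal_sub oK n1 sK n2 zK n3 (fun θ hθ => by rw [h θ hθ, n4]; ring)
    refine ⟨b + α • a, fun y => ?_⟩
    rw [hback (-1) α (fun x => by rw [hα x]; ring) y]
    ring

/-- The curvature function is symmetric about the axis. -/
theorem R_zonal (F : E → ℝ) (hS : Smooth2 F) (a b : E) (hZ : ZonAt a (fun x => F x - inner ℝ b x)) :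
    ∀ x ∈ S2, ∀ y ∈ S2, inner ℝ a x = inner ℝ a y → R F x = R F y := by
  intro x hx y hy hxy
  have hn : ‖x‖ = ‖y‖ := by
    rw [mem_sphere_iff_norm, sub_zero] at hx hy
    rw [hx, hy]
  obtain ⟨O, hOa, hOx⟩ := JZG.exists_refl a x y hxy hn
  have sm := JY4.smooth_sub_lin F hS b
  have hinv : (fun z : E => (fun x => F x - inner ℝ b x) (O z)) = (fun x => F x - inner ℝ b x) := by
    funext z
    refine hZ (O z) z ?_ (O.norm_map z)
    calc inner ℝ a (O z) = inner ℝ (O a) (O z) := by rw [hOa]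
      _ = inner ℝ a z := O.inner_map_map a z
  have h1 := JZE.R_comp O _ sm x (S2_ne hx)
  rw [hinv, hOx, JY4.R_sub_lin F hS b x (S2_ne hx), JY4.R_sub_lin F hS b y (S2_ne hy)] at h1
  exact h1

/-- Curvature-preserving families of hedgehogs of revolution. -/
theorem revolution (H : ℝ → E → ℝ) (hH : Family H)
    (hrev : ∀ t ∈ Set.Icc (0 : ℝ) 1, IsRev (H t)) :
    ∀ t ∈ Set.Icc (0 : ℝ) 1, ∃ b : E, ∀ x : E, H t x = H 0 x + inner ℝ b x := by
  have h0 : (0 : ℝ) ∈ Set.Icc (0 : ℝ) 1 := by simp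
  by_cases hconst : ∃ c : ℝ, ∀ u ∈ S2, R (H 0) u = c
  · obtain ⟨c, hc⟩ := hconst
    have hall : ∀ t ∈ Set.Icc (0 : ℝ) 1,
        (∃ b : E, ∀ x : E, H t x = Real.sqrt c * ‖x‖ + inner ℝ b x) ∨
        (∃ b : E, ∀ x : E, H t x = - (Real.sqrt c * ‖x‖) + inner ℝ b x) := fun t ht =>
      const_case (H t) (hH.hom t ht) (hH.smooth t ht) (hrev t ht) c
        (fun u hu => by rw [hH.curv t ht u hu, hc u hu])
    refine JY3.sign_plus H hH.hom ?_ ?_
    · intro x hx
      refine hH.cont0.comp (f := fun t : ℝ => (t, x)) (Continuous.continuousOn (by fun_prop)) ?_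
      intro t ht
      exact ⟨ht, hx⟩
    · intro t ht
      rcases hall t ht with ⟨b, hb⟩ | ⟨b, hb⟩ <;> rcases hall 0 h0 with ⟨b', hb'⟩ | ⟨b', hb'⟩
      · left
        refine ⟨b - b', fun x => ?_⟩
        rw [hb, hb', inner_sub_left]; ring
      · right
        refine ⟨b + b', fun x => ?_⟩
        rw [hb, hb', inner_add_left]; ring
      · right
        refine ⟨b + b', fun x => ?_⟩
        rw [hb, hb', inner_add_left]; ring
      · left
        refine ⟨b - b', fun x => ?_⟩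
        rw [hb, hb', inner_sub_left]; ring
  · obtain ⟨a, b0, ha, hZ0⟩ := hrev 0 h0
    have hb : ∀ t : ℝ, ∃ b : E, t ∈ Set.Icc (0 : ℝ) 1 →
        ZonAt a (fun x => H t x - inner ℝ b x) := by
      intro t
      by_cases ht : t ∈ Set.Icc (0 : ℝ) 1
      · obtain ⟨a', b', ha', hZ'⟩ := hrev t ht
        by_cases h1 : a = a'
        · subst h1
          exact ⟨b', fun _ => hZ'⟩
        by_cases h2 : a = -a'
        · refine ⟨b', fun _ x y hxy hn => hZ' x y ?_ hn⟩
          rw [h2, inner_neg_left, inner_neg_left] at hxy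
          linarith
        · exfalso
          refine hconst ⟨R (H 0) a, ?_⟩
          refine JZF.two_axes (R (H 0)) (JZJ.R_cont (H 0) (hH.smooth 0 h0)) a a' ha ha' h1 h2
            (R_zonal (H 0) (hH.smooth 0 h0) a b0 hZ0) ?_
          intro x hx y hy hxy
          rw [← hH.curv t ht x hx, ← hH.curv t ht y hy]
          exact R_zonal (H t) (hH.smooth t ht) a' b' hZ' x hx y hy hxy
      · exact ⟨0, fun h => absurd h ht⟩
    choose b hb using hb
    exact common_axis H hH a ha b (fun t ht => hb t ht)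

end Pool.Agent.Helper808.Hedge
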